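import Pool.Agent.ThQ.ConjL
import Pool.Agent.ThQ.Seed

/-! # Products of two conjugates of `B` -/

namespace ThO7
open Matrix Module ThQ

variable {K D : Type*} [Field K] [AddCommGroup D] [Module K D] {k : ℕ}

-- BEGIN mb
/-- the inverse of a seed is a seed -/
theorem seed_inv {B : (Matrix (Fin k) (Fin k) K)ˣ} (hB : SeedQ B) : SeedQ B⁻¹ := by
  have hBB : (B : Matrix (Fin k) (Fin k) K) * ((B⁻¹ : (Matrix (Fin k) (Fin k) K)ˣ) : Matrix (Fin k) (Fin k) K) = 1 :=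
    Units.mul_inv B
  have hBB' : ((B⁻¹ : (Matrix (Fin k) (Fin k) K)ˣ) : Matrix (Fin k) (Fin k) K) * (B : Matrix (Fin k) (Fin k) K) = 1 :=
    Units.inv_mul B
  obtain ⟨C, d, hC, hd⟩ := hB.root
  refine ⟨⟨C⁻¹, d, ?_, ?_⟩, ?_, ?_⟩
  · rw [← _root_.mul_inv_rev, hC]
  · have hCC : (C : Matrix (Fin k) (Fin k) K) * ((C⁻¹ : (Matrix (Fin k) (Fin k) K)ˣ) : Matrix (Fin k) (Fin k) K) = 1 :=
      Units.mul_inv C
    have hCT : ((C⁻¹ : (Matrix (Fin k) (Fin k) K)ˣ) : Matrix (Fin k) (Fin k) K)ᵀ * (C : Matrix (Fin k) (Fin k) K)ᵀ = 1 := by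
      rw [← Matrix.transpose_mul, hCC, Matrix.transpose_one]
    calc (d : Matrix (Fin k) (Fin k) K) * ((C⁻¹ : (Matrix (Fin k) (Fin k) K)ˣ) : Matrix (Fin k) (Fin k) K) =
          (((C⁻¹ : (Matrix (Fin k) (Fin k) K)ˣ) : Matrix (Fin k) (Fin k) K)ᵀ * (C : Matrix (Fin k) (Fin k) K)ᵀ) *
            (d : Matrix (Fin k) (Fin k) K) * ((C⁻¹ : (Matrix (Fin k) (Fin k) K)ˣ) : Matrix (Fin k) (Fin k) K) := by
          rw [hCT, Matrix.one_mul]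
      _ = ((C⁻¹ : (Matrix (Fin k) (Fin k) K)ˣ) : Matrix (Fin k) (Fin k) K)ᵀ * ((C : Matrix (Fin k) (Fin k) K)ᵀ *
            (d : Matrix (Fin k) (Fin k) K)) * ((C⁻¹ : (Matrix (Fin k) (Fin k) K)ˣ) : Matrix (Fin k) (Fin k) K) := by
          simp only [Matrix.mul_assoc]
      _ = _ := by
          rw [← hd]
          simp only [Matrix.mul_assoc]
          rw [hCC, Matrix.mul_one]
  · intro v hv
    apply hB.n1
    nth_rewrite 1 [← hv]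
    rw [Matrix.mulVec_mulVec, hBB, Matrix.one_mulVec]
  · intro Z hZ
    apply hB.syl
    have hBT : (B : Matrix (Fin k) (Fin k) K)ᵀ * ((B⁻¹ : (Matrix (Fin k) (Fin k) K)ˣ) : Matrix (Fin k) (Fin k) K)ᵀ = 1 := by
      rw [← Matrix.transpose_mul, hBB', Matrix.transpose_one]
    nth_rewrite 1 [← hZ]
    calc (B : Matrix (Fin k) (Fin k) K)ᵀ * (((B⁻¹ : (Matrix (Fin k) (Fin k) K)ˣ) : Matrix (Fin k) (Fin k) K)ᵀ * Z *
            ((B⁻¹ : (Matrix (Fin k) (Fin k) K)ˣ) : Matrix (Fin k) (Fin k) K)) * (B : Matrix (Fin k) (Fin k) K) =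
          ((B : Matrix (Fin k) (Fin k) K)ᵀ * ((B⁻¹ : (Matrix (Fin k) (Fin k) K)ˣ) : Matrix (Fin k) (Fin k) K)ᵀ) * Z *
            (((B⁻¹ : (Matrix (Fin k) (Fin k) K)ˣ) : Matrix (Fin k) (Fin k) K) * (B : Matrix (Fin k) (Fin k) K)) := by
          simp only [Matrix.mul_assoc]
      _ = Z := by rw [hBT, hBB', Matrix.one_mul, Matrix.mul_one]

/-- As `ThQ.main_block` with `B` in place of `B⁻¹`. -/
theorem main_block2 [Finite K] [Finite D] (qD : QF K D) {B : (Matrix (Fin k) (Fin k) K)ˣ}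
    (hB : SeedQ B) {l v : IG (q0 qD k)} (hl : l ∈ Nm qD k) (hv : v ∈ Np qD k)
    {u : (Matrix (Fin k) (Fin k) K)ˣ} {S T : Matrix (Fin k) (Fin k) K} (hS : IsUnit S.det)
    (hT : IsUnit T.det) (hST : S * (u : Matrix (Fin k) (Fin k) K) * S⁻¹ =
      T * (B : Matrix (Fin k) (Fin k) K) * T⁻¹ * (B : Matrix (Fin k) (Fin k) K)) :
    ∃ r r' : IG (q0 qD k), l * mL qD k u * v = r * mL qD k B * r⁻¹ * (r' * mL qD k B * r'⁻¹) := by
  have hSu := Matrix.isUnit_iff_isUnit_det S |>.2 hS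
  have hTu := Matrix.isUnit_iff_isUnit_det T |>.2 hT
  obtain ⟨S, rfl⟩ := hSu
  obtain ⟨T, rfl⟩ := hTu
  have h1 : S * u * S⁻¹ = T * B * T⁻¹ * B := by
    apply Units.ext
    simp only [Units.val_mul, Matrix.coe_units_inv]
    exact hST
  set x := mL qD k B with hx
  obtain ⟨t0, ht0, -⟩ := seed_real qD hB
  obtain ⟨t, ht1, ht2⟩ := seed_real qD (seed_inv hB)
  rw [map_inv, inv_inv, ← hx] at ht1
  set a := mL qD k (S⁻¹ * T) with ha
  set c := mL qD k S⁻¹ with hc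
  have hu : mL qD k u = a * x * a⁻¹ * (c * x * c⁻¹) := by
    have h2 : u = (S⁻¹ * T) * B * (S⁻¹ * T)⁻¹ * (S⁻¹ * B * (S⁻¹)⁻¹) := by
      calc u = S⁻¹ * (S * u * S⁻¹) * S := by group
        _ = S⁻¹ * (T * B * T⁻¹ * B) * S := by rw [h1]
        _ = _ := by group
    rw [h2]
    simp only [map_mul, map_inv, ha, hc, hx]
  -- first factor
  have hl' : a⁻¹ * l * a ∈ Nm qD k := by
    have h3 := mL_Nm qD (S⁻¹ * T)⁻¹ hl
    rw [map_inv, ← ha, inv_inv] at h3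
    exact h3
  obtain ⟨u1, -, hu1⟩ := conj_low qD hB hl'
  -- second factor
  have hv' : c⁻¹ * v * c ∈ Np qD k := by
    have h3 := mL_Np qD (S⁻¹)⁻¹ hv
    rw [map_inv, ← hc, inv_inv] at h3
    exact h3
  have hv'' := ht2 _ hv'
  obtain ⟨u2, -, hu2⟩ := conj_low qD (seed_inv hB) (mL_Nm qD B⁻¹ hv'')
  rw [← hx] at hu1
  rw [map_inv, ← hx, inv_inv, mul_inv_cancel_right] at hu2
  refine ⟨a * u1, c * t * u2 * t0, ?_⟩
  have e1 : l * (a * x * a⁻¹) = a * u1 * x * (a * u1)⁻¹ := by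
    calc l * (a * x * a⁻¹) = a * ((a⁻¹ * l * a) * x) * a⁻¹ := by group
      _ = a * (u1 * x * u1⁻¹) * a⁻¹ := by rw [hu1]
      _ = _ := by group
  have e2 : (c * x * c⁻¹) * v = c * t * u2 * t0 * x * (c * t * u2 * t0)⁻¹ := by
    calc (c * x * c⁻¹) * v = c * (x * (c⁻¹ * v * c)) * c⁻¹ := by group
      _ = c * ((t * x⁻¹ * t⁻¹) * (c⁻¹ * v * c)) * c⁻¹ := by rw [ht1]
      _ = c * (t * (x⁻¹ * (t⁻¹ * (c⁻¹ * v * c) * t)) * t⁻¹) * c⁻¹ := by group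
      _ = c * (t * (u2 * x⁻¹ * u2⁻¹) * t⁻¹) * c⁻¹ := by rw [hu2]
      _ = c * (t * (u2 * (t0 * x * t0⁻¹) * u2⁻¹) * t⁻¹) * c⁻¹ := by rw [ht0]
      _ = _ := by group
  rw [hu]
  calc l * (a * x * a⁻¹ * (c * x * c⁻¹)) * v =
      (l * (a * x * a⁻¹)) * ((c * x * c⁻¹) * v) := by group
    _ = _ := by rw [e1, e2]
-- END mb

end ThO7
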