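import Pool.Agent.ThO.OTri

/-! # Triangular systems with a middle block of dimension 1 -/

namespace ThO7
open Matrix Module ThQ ThO

variable {K V : Type*} [Field K] [AddCommGroup V] [Module K V] (q : QF K V)

-- BEGIN ta
private theorem ta_ex {D : Submodule K V} (hD : q.ND D) (h1 : 1 ≤ finrank K D) : ∃ e ∈ D, q.Q e ≠ 0 := by
  by_contra hcon
  push Not at hcon
  have h0 : D = ⊥ := by
    rw [Submodule.eq_bot_iff]
    intro x hx
    refine hD x hx fun y hy => ?_
    have h2 := q.add x y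
    rw [hcon _ (D.add_mem hx hy), hcon x hx, hcon y hy, zero_add, zero_add] at h2
    exact h2.symm
  rw [h0, finrank_bot] at h1
  omega

/-- MODULE ta. As `ThO.stepB` (Pool/Agent/ThO/OStep.lean), with `finrank U = 2 (n + 1) + 1`: the middle `D1 = Dp (perp2 U w (G w)) v v'` has
dimension 1, take `d ∈ D1`, `Q d ≠ 0`, `z = h w (G w)`, `w' = -(Q d) • w + z⁻¹ • G w + d`: `Q w' = 0`, `h w' w = 1`, `h w' (G w) = - Q d * z`. -/
theorem step1 [Finite K] [FiniteDimensional K V] (h2 : (2 : K) ≠ 0) {U : Submodule K V} {G : V →ₗ[K] V} {w : V}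
    (hU : q.ND U) (hG : q.Iso U G) (hw : w ∈ U) (h0 : q.Q w = 0) (hz : q.h w (G w) ≠ 0) {n : ℕ}
    (hf : finrank K U = 2 * (n + 1) + 1) {l : Fin n → K} (h : TriB q (q.perp2 U w (G w)) (q.g1 G w) n l) :
    ∃ c : K, c ≠ 0 ∧ TriB q U G (n + 1) (Fin.cons c l) := by
  obtain ⟨v, v', hv, ha, hd⟩ := h
  have hGw := hG.1 w hw
  have hQG : q.Q (G w) = 0 := by rw [hG.2 w hw, h0]
  have hU1 := perp2_ND q hU hw hGw h0 hQG hz
  have hf1 := perp2_finrank q hw hGw h0 hQG hz
  have hD := Dp_ND q hU1 hv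
  have hD3 : 1 ≤ finrank K (q.Dp (q.perp2 U w (G w)) v v') := by
    have := Dp_finrank q hv
    rw [Fintype.card_fin] at this
    omega
  obtain ⟨e, he, hQe⟩ := ta_ex q hD hD3
  have hem := (q.mem_Dp).1 he
  have hem' := (q.mem_perp2).1 hem.1
  have hww : q.h w w = 0 := q.h_self_zero h0
  have hGG : q.h (G w) (G w) = 0 := q.h_self_zero hQG
  have hGw' : q.h (G w) w = q.h w (G w) := q.symm _ _
  have hew : q.h e w = 0 := by rw [q.symm w e, hem'.2.1]
  have heG : q.h e (G w) = 0 := by rw [q.symm (G w) e, hem'.2.2]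
  have m := fun i => (q.mem_perp2).1 (hv.mem i)
  have m' := fun i => (q.mem_perp2).1 (hv.mem' i)
  have hwU : newv q G w e ∈ U :=
    U.add_mem (U.sub_mem (U.smul_mem _ hGw) (U.smul_mem _ hw)) hem'.1
  have hw1 : q.h (newv q G w e) w = 1 := by
    rw [newv, q.add_left, q.sub_left, q.smul_left, q.smul_left, hww, hGw', hew, inv_mul_cancel₀ hz]
    ring
  have hwQ : q.Q (newv q G w e) = 0 := by
    rw [newv, q.add, q.Q_sub, q.smul, q.smul, hQG, h0, q.sub_left, q.smul_left,
      q.smul_left, q.smul_left, map_smul, hem'.2.1, hem'.2.2, hGw', smul_eq_mul]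
    field_simp
    ring
  have hwc : q.h (newv q G w e) (G w) = -(q.Q e * q.h w (G w)) := by
    rw [newv, q.add_left, q.sub_left, q.smul_left, q.smul_left, hGG, heG]
    ring
  have hh := hyp_cons q hw hwU h0 hwQ hw1 (v := v) (v' := v')
    ⟨fun i => (q.mem_perp2).2 ⟨(m i).1, (m i).2.1, by
      rw [newv, q.add_left, q.sub_left, q.smul_left, q.smul_left, (m i).2.1, (m i).2.2,
        q.symm (v i) e, (hem.2 i).1]
      ring⟩, fun i => (q.mem_perp2).2 ⟨(m' i).1, (m' i).2.1, by
      rw [newv, q.add_left, q.sub_left, q.smul_left, q.smul_left, (m' i).2.1, (m' i).2.2,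
        q.symm (v' i) e, (hem.2 i).2]
      ring⟩, hv.sing, hv.sing', hv.iso, hv.iso', hv.dual⟩
  have hvG : ∀ i, q.h (v' i) (G w) = 0 := fun i => by rw [q.symm (G w), (m' i).2.2]
  have hvg : ∀ i j, q.h (v' i) (G (v j)) = q.h (v' i) (q.g1 G w (v j)) := fun i j => by
    rw [q.g1_apply, map_sub, map_smul, hvG, smul_zero, sub_zero]
  refine ⟨-(q.Q e * q.h w (G w)), neg_ne_zero.2 (mul_ne_zero hQe hz), _, _, hh, fun i j hij => ?_, fun i => ?_⟩
  · revert hij
    refine Fin.cases (fun hij => ?_) (fun i => ?_) i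
    · exact absurd hij (Fin.not_lt_zero j)
    · refine Fin.cases (fun _ => ?_) (fun j => ?_) j
      · rw [Fin.cons_succ, Fin.cons_zero]
        exact hvG i
      · intro hij
        rw [Fin.cons_succ, Fin.cons_succ, hvg]
        exact ha i j (Fin.succ_lt_succ_iff.1 hij)
  · refine Fin.cases ?_ (fun i => ?_) i
    · rw [Fin.cons_zero, Fin.cons_zero, Fin.cons_zero]
      exact hwc
    · rw [Fin.cons_succ, Fin.cons_succ, Fin.cons_succ, hvg]
      exact hd i
-- END ta

-- BEGIN tb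
private theorem tb_cons {n : ℕ} {c : K} {l : Fin n → K} (hc : c ≠ 0) (hl : ∀ i, l i ≠ 0) :
    ∀ i, (Fin.cons c l : Fin (n + 1) → K) i ≠ 0 := by
  intro i
  refine Fin.cases ?_ (fun i => ?_) i
  · rw [Fin.cons_zero]
    exact hc
  · rw [Fin.cons_succ]
    exact hl i

/-- a singular vector of a nondegenerate line is `0` -/
private theorem tb_line {D : Submodule K V} (hD : q.ND D) (h1 : finrank K D = 1) {d : V} (hd : d ∈ D)
    (h0 : q.Q d = 0) : d = 0 := by
  by_contra hn
  have hn' : (⟨d, hd⟩ : D) ≠ 0 := fun h => hn (congrArg Subtype.val h)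
  have h2 := (finrank_eq_one_iff_of_nonzero' (⟨d, hd⟩ : D) hn').1 h1
  refine hn (hD d hd fun y hy => ?_)
  obtain ⟨c, hc⟩ := h2 ⟨y, hy⟩
  have h3 : c • d = y := congrArg Subtype.val hc
  rw [← h3, map_smul, q.h_self_zero h0, smul_zero]

/-- MODULE tb. Induction as in `ThO.triB_ex`. If some singular `w ∈ U` has `h w (G w) ≠ 0`: `step1`.  Otherwise: if `finrank U ≥ 5` as in
`triB_ex` (`sym_exc5`, `exc_odd`, `exc_eig`, `stepB2`).  If `finrank U = 3`: `w ≠ 0` singular (`sing_ex`), partner `w'`; `G w` is singular and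
orthogonal to `w`; `perp2 U w w'` has dimension 1 and no singular vectors, so `G w = c • w` (write `G w = α w + β w' + d`, `β = 0`, `Q d = 0`,
`d = 0`), `c ≠ 0`, `stepB2` with `n = 0`. -/
theorem tri1 [Finite K] [FiniteDimensional K V] (h2 : (2 : K) ≠ 0) (n : ℕ) (U : Submodule K V)
    (G : V →ₗ[K] V) (hU : q.ND U) (hf : finrank K U = 2 * n + 1) (hG : q.Iso U G) :
    ∃ l : Fin n → K, (∀ i, l i ≠ 0) ∧ TriB q U G n l := by
  induction n generalizing U G with
  | zero =>
    exact ⟨Fin.elim0, fun i => i.elim0, Fin.elim0, Fin.elim0, ⟨fun i => i.elim0, fun i => i.elim0,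
      fun i => i.elim0, fun i => i.elim0, fun i => i.elim0, fun i => i.elim0, fun i => i.elim0⟩,
      fun i => i.elim0, fun i => i.elim0⟩
  | succ n ih =>
    by_cases c1 : ∃ w ∈ U, q.Q w = 0 ∧ q.h w (G w) ≠ 0
    · obtain ⟨w, hw, h0, hz⟩ := c1
      have hQ : q.Q (G w) = 0 := by rw [hG.2 w hw, h0]
      have hND := perp2_ND q hU hw (hG.1 w hw) h0 hQ hz
      have hfr := perp2_finrank q hw (hG.1 w hw) h0 hQ hz
      obtain ⟨l, hl, ht⟩ := ih (q.perp2 U w (G w)) (q.g1 G w) hND (by omega) (iso_g1 q hG hw h0 hz)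
      obtain ⟨c, hc, hT⟩ := step1 q h2 hU hG hw h0 hz hf ht
      exact ⟨Fin.cons c l, tb_cons hc hl, hT⟩
    · have hz : ∀ w ∈ U, q.Q w = 0 → q.h w (G w) = 0 := by
        intro w hw h0
        by_contra h
        exact c1 ⟨w, hw, h0, h⟩
      -- a singular eigenvector
      obtain ⟨w, hw, hn, h0, ε, hε0, he⟩ : ∃ w ∈ U, w ≠ 0 ∧ q.Q w = 0 ∧ ∃ ε : K, ε ≠ 0 ∧ G w = ε • w := by
        by_cases hn0 : n = 0
        · subst hn0
          obtain ⟨w, hw, hn, h0⟩ := sing_ex q (U := U) (by omega)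
          obtain ⟨w', hw', h0', h1⟩ := partner q hU hw h0 hn
          have hab : q.h w w' ≠ 0 := by
            rw [← q.symm w w', h1]
            exact one_ne_zero
          have hND := perp2_ND q hU hw hw' h0 h0' hab
          have hfr := perp2_finrank q hw hw' h0 h0' hab
          have hGw : q.h w (G w) = 0 := hz w hw h0
          have hGw' : q.h (G w) w = 0 := by rw [q.symm]; exact hGw
          have hd : G w - q.h w' (G w) • w = 0 := by
            refine tb_line q hND (by omega) ((q.mem_perp2).2 ⟨U.sub_mem (hG.1 w hw) (U.smul_mem _ hw), ?_, ?_⟩) ?_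
            · rw [map_sub, map_smul, hGw, q.h_self_zero h0, smul_zero, sub_zero]
            · rw [map_sub, map_smul, h1, smul_eq_mul, mul_one, sub_self]
            · rw [q.Q_sub, q.smul, hG.2 w hw, h0, map_smul, hGw', smul_zero, mul_zero, add_zero, sub_zero]
          refine ⟨w, hw, hn, h0, q.h w' (G w), fun hc => hab ?_, sub_eq_zero.1 hd⟩
          rw [hc, zero_smul, sub_zero] at hd
          rw [← hG.h hw hw', hd, q.symm (G w') 0, map_zero]
        · obtain ⟨c, hE⟩ := sym_exc5 q hU (by omega) hG hz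
          obtain ⟨ε, hε, rfl⟩ := exc_odd q h2 hU (n := n + 1) (by omega) hG hE
          obtain ⟨w, hw, hn, h0, he⟩ := exc_eig q hU (by omega) hG hε hE
          refine ⟨w, hw, hn, h0, ε, ?_, he⟩
          rintro rfl
          rw [zero_pow two_ne_zero] at hε
          exact zero_ne_one hε
      obtain ⟨w', hw', h0', h1⟩ := partner q hU hw h0 hn
      have hab : q.h w w' ≠ 0 := by
        rw [← q.symm w w', h1]
        exact one_ne_zero
      have hND := perp2_ND q hU hw hw' h0 h0' hab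
      have hfr := perp2_finrank q hw hw' h0 h0' hab
      obtain ⟨l, hl, ht⟩ := ih (q.perp2 U w w') (q.g2 G w w') hND (by omega)
        (iso_g2 q hG hw hw' h0 h0' h1 hε0 he)
      exact ⟨Fin.cons ε l, tb_cons hε0 hl, stepB2 q hG hw hw' h0 h0' h1 hε0 he ht⟩
-- END tb

end ThO7
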