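import Pool.Agent.ThU.Defs

/-! # Unipotent matrices over the field with three elements -/

namespace ThO7
open Matrix Polynomial

variable {K : Type*} [Field K]

-- BEGIN un
/-- the digit `i` of `n` in base 3 -/
private def un_dg (n i : ℕ) : ℕ := n / 3 ^ i % 3

/-- the entry `i`, `j` of the product of the matrices with the codes `n`, `m` -/
private def un_pd (n m i j : ℕ) : ℕ :=
  (un_dg n (3 * i) * un_dg m j + un_dg n (3 * i + 1) * un_dg m (3 + j) + un_dg n (3 * i + 2) * un_dg m (6 + j)) % 3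

/-- the product of the matrices with the codes `n`, `m` has the code `p` -/
private def un_ck (n m p : ℕ) : Bool := (List.range 9).all fun t => un_pd n m (t / 3) (t % 3) == un_dg p t

/-- codes of the unipotent and the companion matrices -/
private def un_U (x y z : ℕ) : ℕ := 1 + x * 3 + y * 9 + 81 + z * 243 + 6561

private def un_C (a b : ℕ) : ℕ := 9 + 27 + (3 - a) % 3 * 243 + 2187 + (3 - b) % 3 * 6561

private def un_ab (c : ℕ) : ℕ × ℕ := [(0, 1), (1, 1), (2, 0), (2, 2)].getD c (0, 0)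

private def un_ent (l : List ℕ) (U C : ℕ) : Bool :=
  match l with
  | [S, S', T, T', X, Y, W, W', C', e] =>
    un_ck C C' 6643 && un_ck S S' 6643 && un_ck T T' 6643 && un_ck S U W && un_ck X S W && un_ck T C W' && un_ck Y T W' &&
      (if e = 0 then un_ck X C Y else un_ck Y C X)
  | _ => false

private def un_tab : List (List ℕ) :=
  [[819, 819, 15345, 1002, 6643, 15345, 819, 11928, 1002, 0], [5274, 906, 14427, 847, 8155, 5538, 18882, 17949, 1002, 1],
   [3006, 825, 14427, 847, 8155, 5538, 16614, 17949, 1002, 1], [3708, 1140, 14427, 847, 8155, 5538, 17316, 17949, 1002, 1],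
   [3087, 903, 14427, 847, 8155, 5538, 16695, 17949, 1002, 1], [5193, 822, 14427, 847, 8155, 5538, 18801, 17949, 1002, 1],
   [2952, 1137, 14427, 847, 8155, 5538, 16560, 17949, 1002, 1], [900, 900, 14427, 847, 8155, 5538, 14508, 17949, 1002, 1],
   [819, 819, 14427, 847, 8155, 5538, 14427, 17949, 1002, 1], [2034, 855, 5679, 850, 12475, 17769, 6408, 8472, 1002, 1],
   [819, 819, 10053, 853, 8857, 8373, 3249, 3369, 1002, 1], [819, 819, 15831, 1003, 8884, 16560, 3492, 12333, 1002, 0],
   [1548, 828, 5679, 850, 12475, 17769, 19044, 8472, 1002, 1], [5193, 822, 10053, 853, 8857, 8373, 1062, 3369, 1002, 1],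
   [3006, 825, 15831, 1003, 8884, 16560, 5679, 12333, 1002, 0], [1791, 882, 5679, 850, 12475, 17769, 12726, 8472, 1002, 1],
   [3006, 825, 10053, 853, 8857, 8373, 5436, 3369, 1002, 1], [5193, 822, 15831, 1003, 8884, 16560, 1305, 12333, 1002, 0],
   [1305, 846, 5679, 850, 12475, 17769, 5679, 8472, 1002, 1], [819, 819, 15588, 1004, 11044, 17046, 5436, 11766, 1002, 0],
   [1548, 828, 15831, 1003, 8884, 16560, 4221, 12333, 1002, 0], [1062, 873, 5679, 850, 12475, 17769, 11997, 8472, 1002, 1],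
   [5193, 822, 15588, 1004, 11044, 17046, 3249, 11766, 1002, 0],
   [5922, 834, 15831, 1003, 8884, 16560, 2034, 12333, 1002, 0], [819, 819, 5679, 850, 12475, 17769, 18315, 8472, 1002, 1],
   [3006, 825, 15588, 1004, 11044, 17046, 1062, 11766, 1002, 0],
   [3735, 831, 15831, 1003, 8884, 16560, 6408, 12333, 1002, 0], [819, 819, 15831, 1003, 6643, 15831, 819, 5772, 1003, 0],
   [3006, 825, 7623, 875, 7399, 4027, 9810, 2559, 1003, 1], [5274, 906, 7623, 875, 7399, 4027, 12078, 2559, 1003, 1],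
   [2952, 1137, 7623, 875, 7399, 4027, 9756, 2559, 1003, 1], [819, 819, 7623, 875, 7399, 4027, 7623, 2559, 1003, 1],
   [900, 900, 7623, 875, 7399, 4027, 7704, 2559, 1003, 1], [3708, 1140, 7623, 875, 7399, 4027, 10512, 2559, 1003, 1],
   [5193, 822, 7623, 875, 7399, 4027, 11997, 2559, 1003, 1], [3087, 903, 7623, 875, 7399, 4027, 9891, 2559, 1003, 1],
   [1062, 873, 3249, 880, 10288, 11938, 3249, 1101, 1003, 1], [5922, 834, 15345, 1002, 12502, 16803, 17100, 5367, 1003, 0],
   [5193, 822, 15588, 1004, 9613, 16317, 7866, 5205, 1003, 0], [1305, 846, 3249, 880, 10288, 11938, 10053, 1101, 1003, 1],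
   [1548, 828, 15345, 1002, 12502, 16803, 19287, 5367, 1003, 0], [819, 819, 15588, 1004, 9613, 16317, 10053, 5205, 1003, 0],
   [819, 819, 3249, 880, 10288, 11938, 16128, 1101, 1003, 1], [3735, 831, 15345, 1002, 12502, 16803, 14913, 5367, 1003, 0],
   [3006, 825, 15588, 1004, 9613, 16317, 12240, 5205, 1003, 0], [1791, 882, 3249, 880, 10288, 11938, 3978, 1101, 1003, 1],
   [5193, 822, 15345, 1002, 12502, 16803, 16371, 5367, 1003, 0],
   [5193, 822, 18558, 876, 11800, 16447, 10053, 6204, 1003, 1], [1548, 828, 3249, 880, 10288, 11938, 16857, 1101, 1003, 1],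
   [3006, 825, 15345, 1002, 12502, 16803, 14184, 5367, 1003, 0], [819, 819, 18558, 876, 11800, 16447, 12240, 6204, 1003, 1],
   [2034, 855, 3249, 880, 10288, 11938, 10782, 1101, 1003, 1], [819, 819, 15345, 1002, 12502, 16803, 18558, 5367, 1003, 0],
   [3006, 825, 18558, 876, 11800, 16447, 7866, 6204, 1003, 1], [819, 819, 2466, 977, 6643, 2466, 819, 7617, 977, 0],
   [3006, 825, 7623, 875, 7399, 2570, 9810, 9102, 977, 1], [5274, 906, 7623, 875, 7399, 2570, 12078, 9102, 977, 1],
   [2952, 1137, 7623, 875, 7399, 2570, 9756, 9102, 977, 1], [819, 819, 7623, 875, 7399, 2570, 7623, 9102, 977, 1],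
   [900, 900, 7623, 875, 7399, 2570, 7704, 9102, 977, 1], [3708, 1140, 7623, 875, 7399, 2570, 10512, 9102, 977, 1],
   [5193, 822, 7623, 875, 7399, 2570, 11997, 9102, 977, 1], [3087, 903, 7623, 875, 7399, 2570, 9891, 9102, 977, 1],
   [819, 819, 9810, 879, 8830, 7538, 3006, 16392, 977, 1], [3735, 831, 2709, 976, 11773, 4167, 8352, 7698, 977, 0],
   [3006, 825, 2223, 975, 10342, 2952, 18801, 7536, 977, 0], [1062, 873, 9810, 879, 8830, 7538, 9810, 16392, 977, 1],
   [5922, 834, 2709, 976, 11773, 4167, 10539, 7698, 977, 0], [5193, 822, 2223, 975, 10342, 2952, 14427, 7536, 977, 0],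
   [1305, 846, 9810, 879, 8830, 7538, 16614, 16392, 977, 1], [1548, 828, 2709, 976, 11773, 4167, 12726, 7698, 977, 0],
   [819, 819, 2223, 975, 10342, 2952, 16614, 7536, 977, 0], [1548, 828, 9810, 879, 8830, 7538, 3735, 16392, 977, 1],
   [3006, 825, 2709, 976, 11773, 4167, 7623, 7698, 977, 0], [819, 819, 11997, 877, 11071, 14288, 5679, 3999, 977, 1],
   [2034, 855, 9810, 879, 8830, 7538, 17343, 16392, 977, 1], [819, 819, 2709, 976, 11773, 4167, 11997, 7698, 977, 0],
   [3006, 825, 11997, 877, 11071, 14288, 1305, 3999, 977, 1], [1791, 882, 9810, 879, 8830, 7538, 10539, 16392, 977, 1],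
   [5193, 822, 2709, 976, 11773, 4167, 9810, 7698, 977, 0], [5193, 822, 11997, 877, 11071, 14288, 3492, 3999, 977, 1],
   [819, 819, 9027, 1031, 6643, 9027, 819, 16617, 1031, 0], [5274, 906, 14427, 847, 8155, 6242, 18882, 4575, 1031, 1],
   [3006, 825, 14427, 847, 8155, 6242, 16614, 4575, 1031, 1], [3708, 1140, 14427, 847, 8155, 6242, 17316, 4575, 1031, 1],
   [3087, 903, 14427, 847, 8155, 6242, 16695, 4575, 1031, 1], [5193, 822, 14427, 847, 8155, 6242, 18801, 4575, 1031, 1],
   [2952, 1137, 14427, 847, 8155, 6242, 16560, 4575, 1031, 1], [900, 900, 14427, 847, 8155, 6242, 14508, 4575, 1031, 1],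
   [819, 819, 14427, 847, 8155, 6242, 14427, 4575, 1031, 1], [1548, 828, 12240, 849, 11017, 14882, 5922, 10407, 1031, 1],
   [5193, 822, 3492, 854, 10315, 12020, 14184, 14052, 1031, 1], [3006, 825, 8784, 1029, 10342, 9513, 18801, 16293, 1031, 0],
   [1791, 882, 12240, 849, 11017, 14882, 19287, 10407, 1031, 1],
   [3006, 825, 3492, 854, 10315, 12020, 18558, 14052, 1031, 1], [5193, 822, 8784, 1029, 10342, 9513, 14427, 16293, 1031, 0],
   [2034, 855, 12240, 849, 11017, 14882, 12969, 10407, 1031, 1], [819, 819, 3492, 854, 10315, 12020, 16371, 14052, 1031, 1],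
   [819, 819, 8784, 1029, 10342, 9513, 16614, 16293, 1031, 0], [819, 819, 12240, 849, 11017, 14882, 5193, 10407, 1031, 1],
   [3006, 825, 9270, 1030, 11773, 10728, 7623, 16212, 1031, 0], [3735, 831, 8784, 1029, 10342, 9513, 19530, 16293, 1031, 0],
   [1305, 846, 12240, 849, 11017, 14882, 12240, 10407, 1031, 1],
   [819, 819, 9270, 1030, 11773, 10728, 11997, 16212, 1031, 0], [1548, 828, 8784, 1029, 10342, 9513, 17343, 16293, 1031, 0],
   [1062, 873, 12240, 849, 11017, 14882, 18558, 10407, 1031, 1],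
   [5193, 822, 9270, 1030, 11773, 10728, 9810, 16212, 1031, 0], [5922, 834, 8784, 1029, 10342, 9513, 15156, 16293, 1031, 0]]

private theorem un_all : ((List.range 108).all fun t => un_ent (un_tab.getD t []) (un_U (t / 9 % 3) (t / 3 % 3) (t % 3))
    (un_C (un_ab (t / 27)).1 (un_ab (t / 27)).2)) = true := by decide +kernel

/-- the matrix with the code `n` -/
private def un_M (K : Type*) [Field K] (n : ℕ) : Matrix (Fin 3) (Fin 3) K :=
  Matrix.of fun i j => (un_dg n (3 * (i : ℕ) + j) : K)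

private theorem un_mod (h3 : (3 : K) = 0) (a : ℕ) : ((a % 3 : ℕ) : K) = a := by
  conv_rhs => rw [← Nat.mod_add_div a 3]
  push_cast
  rw [h3, zero_mul, add_zero]

private theorem un_mul (h3 : (3 : K) = 0) {n m p : ℕ} (h : un_ck n m p = true) :
    un_M K n * un_M K m = un_M K p := by
  have h1 : ∀ t < 9, un_pd n m (t / 3) (t % 3) = un_dg p t := by
    intro t ht
    have h2 := List.all_eq_true.1 h t (List.mem_range.2 ht)
    exact eq_of_beq h2
  ext i j
  have h2 := h1 (3 * (i : ℕ) + j) (by omega)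
  have h4 : (3 * (i : ℕ) + j) / 3 = i := by omega
  have h5 : (3 * (i : ℕ) + j) % 3 = j := by omega
  rw [h4, h5] at h2
  show _ = (un_dg p (3 * (i : ℕ) + j) : K)
  rw [← h2, un_pd, un_mod h3, Matrix.mul_apply, Fin.sum_univ_three]
  simp [un_M]

private theorem un_one : un_M K 6643 = 1 := by
  ext i j
  fin_cases i <;> fin_cases j <;> simp [un_M, un_dg]

private theorem un_unit (h3 : (3 : K) = 0) {n m : ℕ} (h : un_ck n m 6643 = true) : IsUnit (un_M K n).det := by
  have h1 := un_mul h3 h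
  rw [un_one] at h1
  exact Matrix.isUnit_det_of_right_inverse h1

private theorem un_ent_imp (h3 : (3 : K) = 0) {l : List ℕ} {U C : ℕ} (h : un_ent l U C = true) :
    ∃ S T : Matrix (Fin 3) (Fin 3) K, IsUnit S.det ∧ IsUnit T.det ∧
      (S * un_M K U * S⁻¹ = T * un_M K C * T⁻¹ * (un_M K C)⁻¹ ∨
        S * un_M K U * S⁻¹ = T * un_M K C * T⁻¹ * un_M K C) := by
  unfold un_ent at h
  split at h
  · rename_i S S' T T' X Y W W' C' e
    simp only [Bool.and_eq_true] at h
    obtain ⟨⟨⟨⟨⟨⟨⟨hC, hS⟩, hT⟩, h1⟩, h2⟩, h4⟩, h5⟩, h6⟩ := h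
    have uC := un_unit h3 hC
    have uS := un_unit h3 hS
    have uT := un_unit h3 hT
    have e1 : un_M K S * un_M K U * (un_M K S)⁻¹ = un_M K X := by
      rw [un_mul h3 h1, ← un_mul h3 h2, Matrix.mul_nonsing_inv_cancel_right _ _ uS]
    have e2 : un_M K T * un_M K C * (un_M K T)⁻¹ = un_M K Y := by
      rw [un_mul h3 h4, ← un_mul h3 h5, Matrix.mul_nonsing_inv_cancel_right _ _ uT]
    refine ⟨un_M K S, un_M K T, uS, uT, ?_⟩
    rw [e1, e2]
    by_cases he : e = 0
    · rw [if_pos he] at h6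
      left
      rw [← un_mul h3 h6, Matrix.mul_nonsing_inv_cancel_right _ _ uC]
    · rw [if_neg he] at h6
      right
      exact (un_mul h3 h6).symm
  · exact absurd h (by simp)

/-- every element is the cast of a digit -/
private theorem un_dig (h3 : (3 : K) = 0) (hK : ∀ x : K, x = 0 ∨ x = 1 ∨ x = -1) (x : K) : ∃ n : ℕ, n < 3 ∧ (n : K) = x := by
  rcases hK x with h | h | h
  · exact ⟨0, by norm_num, by rw [h]; simp⟩
  · exact ⟨1, by norm_num, by rw [h]; simp⟩
  · refine ⟨2, by norm_num, ?_⟩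
    rw [h]
    push_cast
    linear_combination h3

/-- MODULE un. `f = X³ + b X² + a X - 1` has no root (`f 1 ≠ 0`, `f (-1) ≠ 0`), so `(a, b)` is one of `(-1, 0), (0, 1), (1, 1), (-1, -1)`.
For each of these four and each `x y z ∈ {0, 1, -1}` give `S`, `T` explicitly (computer; `x = y = z = 0`: `S = T = 1`, first alternative;
transvections, that is `x z = 0`: only the second alternative is possible; otherwise both).  The equations are best checked over `ZMod 3` by
`decide` (all matrices with their inverses) and mapped to `K` with `ZMod.castHom` (characteristic 3), or directly by `ext i j; fin_cases`,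
`simp`, `ring_nf` with `h3`. -/
theorem uni3 (h3 : (3 : K) = 0) (hK : ∀ x : K, x = 0 ∨ x = 1 ∨ x = -1) {f : K[X]} (hfm : f.Monic)
    (hfi : Irreducible f) (hfn : f.natDegree = 3) (hf0 : f.coeff 0 = -1) (x y z : K) :
    ∃ S T : Matrix (Fin 3) (Fin 3) K, IsUnit S.det ∧ IsUnit T.det ∧
      (S * !![1, x, y; 0, 1, z; 0, 0, 1] * S⁻¹ = T * ThU.comp f 3 * T⁻¹ * (ThU.comp f 3)⁻¹ ∨
        S * !![1, x, y; 0, 1, z; 0, 0, 1] * S⁻¹ = T * ThU.comp f 3 * T⁻¹ * ThU.comp f 3) := by
  have hroot : ∀ r : K, f.eval r ≠ 0 := by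
    intro r hr
    have h1 : f.natDegree = 1 :=
      Polynomial.natDegree_eq_of_degree_eq_some (Polynomial.degree_eq_one_of_irreducible_of_root hfi hr)
    omega
  have hev : ∀ r : K, f.eval r = -1 + f.coeff 1 * r + f.coeff 2 * r ^ 2 + r ^ 3 := by
    intro r
    have h1 : f.coeff 3 = 1 := by rw [← hfn]; exact hfm.coeff_natDegree
    rw [Polynomial.eval_eq_sum_range, hfn]
    simp only [Finset.sum_range_succ, Finset.sum_range_zero, hf0, h1]
    ring
  obtain ⟨a, ha, ha'⟩ := un_dig h3 hK (f.coeff 1)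
  obtain ⟨b, hb, hb'⟩ := un_dig h3 hK (f.coeff 2)
  obtain ⟨x, hx, rfl⟩ := un_dig h3 hK x
  obtain ⟨y, hy, rfl⟩ := un_dig h3 hK y
  obtain ⟨z, hz, rfl⟩ := un_dig h3 hK z
  have h1 := hroot 1
  have h2 := hroot (-1)
  rw [hev, ← ha', ← hb'] at h1 h2
  have hab : ∃ c < 4, un_ab c = (a, b) := by
    interval_cases a <;> interval_cases b
    all_goals first
      | exact ⟨0, by norm_num, rfl⟩
      | exact ⟨1, by norm_num, rfl⟩
      | exact ⟨2, by norm_num, rfl⟩
      | exact ⟨3, by norm_num, rfl⟩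
      | (refine absurd ?_ h1; push_cast; ring1)
      | (refine absurd ?_ h1; push_cast; linear_combination (exp := 1) h3)
      | (refine absurd ?_ h2; push_cast; ring1)
      | (refine absurd ?_ h2; push_cast; linear_combination (exp := 1) -h3)
  obtain ⟨c, hc, hcab⟩ := hab
  have hCm : ThU.comp f 3 = un_M K (un_C a b) := by
    clear h1 h2 hroot hev
    ext i j
    show (if (j : ℕ) + 1 = 3 then - f.coeff i else if (i : ℕ) = j + 1 then 1 else 0) =
      (un_dg (un_C a b) (3 * (i : ℕ) + j) : K)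
    interval_cases a <;> interval_cases b <;> fin_cases i <;> fin_cases j <;>
      simp [un_dg, un_C, hf0, ← ha', ← hb'] <;> linear_combination -h3
  have hUm : (!![1, (x : K), (y : K); 0, 1, (z : K); 0, 0, 1] : Matrix (Fin 3) (Fin 3) K) = un_M K (un_U x y z) := by
    clear h1 h2 hroot hev
    ext i j
    show _ = (un_dg (un_U x y z) (3 * (i : ℕ) + j) : K)
    interval_cases x <;> interval_cases y <;> interval_cases z <;> fin_cases i <;> fin_cases j <;>
      simp [un_dg, un_U]
  have hall := List.all_eq_true.1 un_all (27 * c + 9 * x + 3 * y + z) (List.mem_range.2 (by omega))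
  simp only [show (27 * c + 9 * x + 3 * y + z) / 27 = c by omega, show (27 * c + 9 * x + 3 * y + z) / 9 % 3 = x by omega,
    show (27 * c + 9 * x + 3 * y + z) / 3 % 3 = y by omega, show (27 * c + 9 * x + 3 * y + z) % 3 = z by omega, hcab] at hall
  rw [hCm, hUm]
  exact un_ent_imp h3 hall
-- END un

end ThO7
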