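import Pool.Agent.ThO7.Adj
import Pool.Agent.ThO7.Tr1
import Pool.Agent.ThO7.Mb
import Pool.Agent.ThO7.Uni
import Pool.Agent.ThO.OMain

/-! # Middle block of dimension 1, and the main theorem for three elements -/

namespace ThO7
open Matrix Polynomial Module ThQ ThO

variable {K D : Type*} [Field K] [AddCommGroup D] [Module K D] {k : ℕ}

private theorem thr_mem {G : Type*} [Group G] {g : G} :
    g ∈ commutator G ↔ (Abelianization.of g : Abelianization G) = 1 := by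
  rw [← MonoidHom.mem_ker, Abelianization.ker_of]

private theorem thr_det (i : Fin k) (t : Kˣ) :
    ((dgU i t : (Matrix (Fin k) (Fin k) K)ˣ) : Matrix (Fin k) (Fin k) K).det = (t : K) := by
  show (diagonal (Function.update 1 i (t : K))).det = _
  rw [det_diagonal, Finset.prod_update_of_mem (Finset.mem_univ i)]
  simp

private theorem thr_dg_mul (i : Fin k) (s t : Kˣ) :
    (dgU i (s * t) : (Matrix (Fin k) (Fin k) K)ˣ) = dgU i s * dgU i t := by
  apply Units.ext
  show diagonal (Function.update 1 i ((s * t : Kˣ) : K)) =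
    diagonal (Function.update 1 i (s : K)) * diagonal (Function.update 1 i (t : K))
  rw [diagonal_mul_diagonal]
  congr 1
  funext j
  by_cases h : j = i
  · subst h
    simp
  · simp [Function.update_of_ne h]

private theorem thr_rk (qD : QF K D) (s : IG qD) :
    rk ⊤ ((oD qD k s : V0 K D k ≃ₗ[K] V0 K D k) : V0 K D k →ₗ[K] V0 K D k) =
      rk ⊤ ((s : D ≃ₗ[K] D) : D →ₗ[K] D) := by
  let ι : D →ₗ[K] V0 K D k :=
    { toFun := fun y => (0, y, 0)
      map_add' := fun y y' => by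
        refine Prod.ext ?_ (Prod.ext rfl ?_)
        · exact (add_zero 0).symm
        · exact (add_zero 0).symm
      map_smul' := fun c y => by
        refine Prod.ext ?_ (Prod.ext rfl ?_)
        · exact (smul_zero c).symm
        · exact (smul_zero c).symm }
  have hι : Function.Injective ι := fun y y' h => (Prod.mk.inj (Prod.mk.inj h).2).1
  have e : (⊤ : Submodule K (V0 K D k)).map
      (((oD qD k s : V0 K D k ≃ₗ[K] V0 K D k) : V0 K D k →ₗ[K] V0 K D k) - LinearMap.id) =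
      ((⊤ : Submodule K D).map (((s : D ≃ₗ[K] D) : D →ₗ[K] D) - LinearMap.id)).map ι := by
    ext z
    constructor
    · rintro ⟨v, -, rfl⟩
      refine ⟨(s : D ≃ₗ[K] D) v.2.1 - v.2.1, ⟨v.2.1, trivial, rfl⟩, ?_⟩
      show ((0, (s : D ≃ₗ[K] D) v.2.1 - v.2.1, 0) : V0 K D k) =
        (v.1 - v.1, (s : D ≃ₗ[K] D) v.2.1 - v.2.1, v.2.2 - v.2.2)
      rw [sub_self, sub_self]
    · rintro ⟨_, ⟨y, -, rfl⟩, rfl⟩
      refine ⟨(0, y, 0), trivial, ?_⟩
      show ((0 - 0, (s : D ≃ₗ[K] D) y - y, 0 - 0) : V0 K D k) = (0, (s : D ≃ₗ[K] D) y - y, 0)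
      rw [sub_self]
  rw [rk, rk, e]
  exact (Submodule.equivMapOfInjective ι hι _).finrank_eq.symm

/-- `mL (dgU i t)` for a square `t` -/
theorem dg_sq (h2 : (2 : K) ≠ 0) (qD : QF K D) (i : Fin k) {t : Kˣ} (ht : IsSquare (t : K)) :
    mL qD k (dgU i t) ∈ commutator (IG (q0 qD k)) := by
  have h1 : (q0 qD k).Q (vm K D i (1 : K)) ≠ 0 := by rw [vm_Q]; exact one_ne_zero
  have h3 : (q0 qD k).Q (vm K D i (t : K)) ≠ 0 := by rw [vm_Q]; exact t.ne_zero
  rw [dg_rE qD i t (mul_one _) h1 h3]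
  exact refl_pair (q0 qD k) h2 h1 h3 (by rw [vm_Q, vm_Q, one_mul]; exact ht)

/-- isometries of a line -/
theorem line_sq (h2 : (2 : K) ≠ 0) (qD : QF K D) (hD : qD.ND ⊤) (hD1 : finrank K D = 1) (s : IG qD) :
    s * s = 1 := by
  obtain ⟨x, hx0, hx⟩ := finrank_eq_one_iff'.1 hD1
  have hQ : qD.Q x ≠ 0 := by
    intro hQ
    refine hx0 (hD x trivial fun y _ => ?_)
    obtain ⟨c, rfl⟩ := hx y
    rw [map_smul, qD.h_self_zero hQ, smul_zero]
  obtain ⟨c, hc⟩ := hx ((s : D ≃ₗ[K] D) x)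
  have hc2 : c ^ 2 = 1 := by
    have h3 : qD.Q ((s : D ≃ₗ[K] D) x) = qD.Q x := s.2 x
    rw [← hc, qD.smul] at h3
    have h4 : (c ^ 2 - 1) * qD.Q x = 0 := by linear_combination h3
    rcases mul_eq_zero.1 h4 with h5 | h5
    · linear_combination h5
    · exact absurd h5 hQ
  apply Subtype.ext
  apply LinearEquiv.ext
  intro y
  obtain ⟨d, rfl⟩ := hx y
  show (s : D ≃ₗ[K] D) ((s : D ≃ₗ[K] D) (d • x)) = d • x
  rw [map_smul, map_smul, ← hc, map_smul, ← hc, smul_smul, smul_smul, mul_assoc, ← sq, hc2, mul_one]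

/-- the middle block of a commutator -/
theorem mid_one [Finite K] [Finite D] (h2 : (2 : K) ≠ 0) (hk : 0 < k) (qD : QF K D) (hD : qD.ND ⊤)
    (hD1 : finrank K D = 1) {u : (Matrix (Fin k) (Fin k) K)ˣ} {s : IG qD}
    (h : mL qD k u * oD qD k s ∈ commutator (IG (q0 qD k))) :
    s = 1 ∧ IsSquare (u : Matrix (Fin k) (Fin k) K).det := by
  have hfd : FiniteDimensional K D := Module.Finite.of_finite
  have hV : (q0 qD k).ND ⊤ := q0_ND qD hD
  have hfV : finrank K (V0 K D k) = 2 * k + 1 := by rw [V0_finrank, hD1]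
  have hfT : finrank K (⊤ : Submodule K (V0 K D k)) = 2 * k + 1 := by rw [finrank_top, hfV]
  have hud : IsUnit (u : Matrix (Fin k) (Fin k) K).det := (Matrix.isUnit_iff_isUnit_det _).1 u.isUnit
  obtain ⟨t, ht⟩ : ∃ t : Kˣ, t = hud.unit := ⟨_, rfl⟩
  have htu : (t : K) = (u : Matrix (Fin k) (Fin k) K).det := by rw [ht]; rfl
  let i : Fin k := ⟨0, hk⟩
  have h3 := mL_dg h2 hk qD i u htu
  have h4 : mL qD k (dgU i t) * oD qD k s ∈ commutator (IG (q0 qD k)) := by
    rw [thr_mem, map_mul] at h ⊢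
    rw [thr_mem, map_mul, map_inv, mul_inv_eq_one] at h3
    rw [← h3]
    exact h
  have h1Q : (q0 qD k).Q (vm K D i (1 : K)) ≠ 0 := by rw [vm_Q]; exact one_ne_zero
  have htQ : (q0 qD k).Q (vm K D i (t : K)) ≠ 0 := by rw [vm_Q]; exact t.ne_zero
  have hrE : ∀ (e : V0 K D k) (he : (q0 qD k).Q e ≠ 0),
      rk ⊤ ((rE (q0 qD k) e he : V0 K D k ≃ₗ[K] V0 K D k) : V0 K D k →ₗ[K] V0 K D k) % 2 = 1 := by
    intro e he
    have h5 := par_refl' (q0 qD k) (U := ⊤) (G := LinearMap.id) hV ⟨fun _ _ => trivial, fun _ _ => rfl⟩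
      (f := e) trivial he
    have h6 : rk (⊤ : Submodule K (V0 K D k)) (LinearMap.id : V0 K D k →ₗ[K] V0 K D k) = 0 := by
      rw [rk, sub_self, Submodule.map_zero, finrank_bot]
    rw [h6] at h5
    exact h5
  have hpar1 := par_mul_odd (q0 qD k) h2 k ⊤ _ _ hV hfT (IG_iso (q0 qD k) (rE (q0 qD k) _ h1Q))
    (IG_iso (q0 qD k) (rE (q0 qD k) _ htQ))
  have hpar2 := par_mul_odd (q0 qD k) h2 k ⊤ _ _ hV hfT (IG_iso (q0 qD k) (mL qD k (dgU i t)))
    (IG_iso (q0 qD k) (oD qD k s))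
  have hev := comm_even_odd (q0 qD k) h2 hV hfV h4
  have e1 : ((mL qD k (dgU i t) : V0 K D k ≃ₗ[K] V0 K D k) : V0 K D k →ₗ[K] V0 K D k) =
      ((rE (q0 qD k) _ h1Q : V0 K D k ≃ₗ[K] V0 K D k) : V0 K D k →ₗ[K] V0 K D k) ∘ₗ
      ((rE (q0 qD k) _ htQ : V0 K D k ≃ₗ[K] V0 K D k) : V0 K D k →ₗ[K] V0 K D k) := by
    rw [dg_rE qD i t (mul_one _) h1Q htQ]
    rfl
  have e2 : (((mL qD k (dgU i t) * oD qD k s : IG (q0 qD k)) : V0 K D k ≃ₗ[K] V0 K D k) :
      V0 K D k →ₗ[K] V0 K D k) =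
      ((mL qD k (dgU i t) : V0 K D k ≃ₗ[K] V0 K D k) : V0 K D k →ₗ[K] V0 K D k) ∘ₗ
      ((oD qD k s : V0 K D k ≃ₗ[K] V0 K D k) : V0 K D k →ₗ[K] V0 K D k) := rfl
  rw [e2, hpar2, thr_rk] at hev
  rw [← e1] at hpar1
  have a1 := hrE _ h1Q
  have a2 := hrE _ htQ
  have hle : rk ⊤ ((s : D ≃ₗ[K] D) : D →ₗ[K] D) ≤ 1 := by
    have h5 := rk_le (U := (⊤ : Submodule K D)) (G := ((s : D ≃ₗ[K] D) : D →ₗ[K] D))
    rwa [finrank_top, hD1] at h5
  have h0 : rk ⊤ ((s : D ≃ₗ[K] D) : D →ₗ[K] D) = 0 := by omega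
  have hs1 : s = 1 := by
    rw [rk, Submodule.finrank_eq_zero] at h0
    apply Subtype.ext
    ext x
    have h3 : (s : D ≃ₗ[K] D) x - x ∈
        (⊤ : Submodule K D).map (((s : D ≃ₗ[K] D) : D →ₗ[K] D) - LinearMap.id) :=
      ⟨x, trivial, rfl⟩
    rw [h0, Submodule.mem_bot] at h3
    exact sub_eq_zero.1 h3
  refine ⟨hs1, ?_⟩
  rw [hs1, map_one, mul_one] at h4
  have h5 : sgnQ (q0 qD k) (mL qD k (dgU i t)) = 1 :=
    Abelianization.commutator_subset_ker (sgnQ (q0 qD k)) h4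
  obtain ⟨r, hr⟩ := (sgn_dg h2 qD i t).1 h5
  rw [← htu, hr]
  exact ⟨(r : K), Units.val_mul r r⟩

/-- every isometry is, modulo commutators, in the centralizer of `mL B` -/
theorem all_AA1 [Finite K] [Finite D] (h2 : (2 : K) ≠ 0) (hk : 0 < k) (qD : QF K D) (hD : qD.ND ⊤)
    (hD1 : finrank K D = 1) {B C : (Matrix (Fin k) (Fin k) K)ˣ} (hB : SeedQ B) (hC : C * C = B)
    (hCs : ¬ IsSquare (C : Matrix (Fin k) (Fin k) K).det) (g : IG (q0 qD k)) :
    g ∈ AA qD k (mL qD k B) := by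
  have hfd : FiniteDimensional K D := Module.Finite.of_finite
  have hf : finrank K (⊤ : Submodule K (V0 K D k)) = 2 * k + 1 := by
    rw [finrank_top, V0_finrank, hD1]
  obtain ⟨l, hl0, w, w', hw, h1, h3⟩ := tri1 (q0 qD k) h2 k ⊤
    ((g : V0 K D k ≃ₗ[K] V0 K D k) : V0 K D k →ₗ[K] V0 K D k) (q0_ND qD hD) hf
    ⟨fun _ _ => trivial, fun x _ => g.2 x⟩
  set a : Matrix (Fin k) (Fin k) K :=
    Matrix.of fun i j => (q0 qD k).h (w' i) ((g : V0 K D k ≃ₗ[K] V0 K D k) (w j)) with ha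
  have htri : a.BlockTriangular id := fun i j hij => h1 i j hij
  have hdet : IsUnit a.det := by
    rw [Matrix.det_of_isUpperTriangular htri, isUnit_iff_ne_zero]
    refine Finset.prod_ne_zero_iff.2 fun i _ => ?_
    have : a i i = l i := h3 i
    rw [this]
    exact hl0 i
  obtain ⟨P, s, hP⟩ := std_of_sysB qD hD g (a := a) ⟨w, w', hw, fun i j => rfl⟩ hdet
  obtain ⟨n, hn, v, hv, u, -, hg⟩ := ldu qD hP hdet
  let i : Fin k := ⟨0, hk⟩
  have hCB : C * B = B * C := by rw [← hC, mul_assoc]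
  have hmL : mL qD k u ∈ AA qD k (mL qD k B) := by
    have hdu : IsUnit (u : Matrix (Fin k) (Fin k) K).det :=
      (Matrix.isUnit_iff_isUnit_det _).1 u.isUnit
    have hdC : IsUnit (C : Matrix (Fin k) (Fin k) K).det :=
      (Matrix.isUnit_iff_isUnit_det _).1 C.isUnit
    have h4 := comm_le_AA qD (mL qD k B) (mL_dg h2 hk qD i u (t := hdu.unit) rfl)
    suffices h5 : mL qD k (dgU i hdu.unit) ∈ AA qD k (mL qD k B) by
      have h7 : mL qD k u = mL qD k u * (mL qD k (dgU i hdu.unit))⁻¹ * mL qD k (dgU i hdu.unit) := by group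
      rw [h7]
      exact Subgroup.mul_mem _ h4 h5
    by_cases hsq : IsSquare (hdu.unit : K)
    · exact comm_le_AA qD _ (dg_sq h2 qD i hsq)
    · refine mem_AA.2 ⟨mL qD k C, by rw [← map_mul, ← map_mul, hCB], ?_⟩
      have h6 := thr_mem.1 (mL_dg h2 hk qD i C (t := hdC.unit) rfl)
      rw [map_mul, map_inv, mul_inv_eq_one] at h6
      rw [thr_mem, map_mul, h6, ← map_mul, ← map_mul, ← thr_dg_mul, ← thr_mem]
      refine dg_sq h2 qD i ?_
      rw [Units.val_mul]
      exact ThO7.nsq_mul h2 hsq hCs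
  have hoD : oD qD k s ∈ AA qD k (mL qD k B) := by
    refine mem_AA.2 ⟨oD qD k s, oD_mL qD s B, ?_⟩
    rw [← map_mul, line_sq h2 qD hD hD1, map_one]
    exact Subgroup.one_mem _
  have hmem : P⁻¹ * g * P ∈ AA qD k (mL qD k B) := by
    rw [hg]
    exact Subgroup.mul_mem _ (Subgroup.mul_mem _ (Subgroup.mul_mem _
      (comm_le_AA qD _ (low_comm qD hB hn)) hmL) hoD)
      (comm_le_AA qD _ (up_comm qD hB hv))
  have h4 : g = (P * (P⁻¹ * g * P) * P⁻¹ * (P⁻¹ * g * P)⁻¹) * (P⁻¹ * g * P) := by group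
  rw [h4]
  refine Subgroup.mul_mem _ (comm_le_AA qD _ ?_) hmem
  exact Subgroup.commutator_mem_commutator (Subgroup.mem_top P) (Subgroup.mem_top (P⁻¹ * g * P))

theorem adj1 [Finite K] [Finite D] (h2 : (2 : K) ≠ 0) (hk : 0 < k) (qD : QF K D) (hD : qD.ND ⊤)
    (hD1 : finrank K D = 1) {B C : (Matrix (Fin k) (Fin k) K)ˣ} (hB : SeedQ B) (hC : C * C = B)
    (hCs : ¬ IsSquare (C : Matrix (Fin k) (Fin k) K).det) (r : IG (q0 qD k)) :
    ∃ r0 ∈ commutator (IG (q0 qD k)), r * mL qD k B * r⁻¹ = r0 * mL qD k B * r0⁻¹ := by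
  obtain ⟨c, hc, hrc⟩ := mem_AA.1 (all_AA1 h2 hk qD hD hD1 hB hC hCs r)
  refine ⟨r * c, hrc, ?_⟩
  have h1 : c * mL qD k B * c⁻¹ = mL qD k B := by rw [hc, mul_inv_cancel_right]
  calc r * mL qD k B * r⁻¹ = r * (c * mL qD k B * c⁻¹) * r⁻¹ := by rw [h1]
    _ = r * c * mL qD k B * (r * c)⁻¹ := by group


/-! ### three elements -/

/-- the factorization of the block, both forms -/
def Fac2 (f : K[X]) (a : Matrix (Fin 3) (Fin 3) K) : Prop :=
  ∃ S T : Matrix (Fin 3) (Fin 3) K, IsUnit S.det ∧ IsUnit T.det ∧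
      (S * a * S⁻¹ = T * ThU.comp f 3 * T⁻¹ * (ThU.comp f 3)⁻¹ ∨
        S * a * S⁻¹ = T * ThU.comp f 3 * T⁻¹ * ThU.comp f 3)

theorem comp3 (f : K[X]) : ThU.comp f 3 = !![0, 0, -f.coeff 0; 1, 0, -f.coeff 1; 0, 1, -f.coeff 2] := by
  ext i j
  fin_cases i <;> fin_cases j <;> simp [ThU.comp]

/-- The main theorem for `V0` with `D` of dimension 1, `k = 3`, three elements. -/
theorem main_V03 [Finite K] [Finite D] (h2 : (2 : K) ≠ 0) (hK : ∀ x : K, x = 0 ∨ x = 1 ∨ x = -1)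
    (qD : QF K D) (hD : qD.ND ⊤) (hD1 : finrank K D = 1) : TP (IG (q0 qD 3)) := by
  have : FiniteDimensional K D := Module.Finite.of_finite
  have h3 : (3 : K) = 0 := by
    rcases hK 2 with h | h | h
    · exact absurd h h2
    · exfalso
      apply one_ne_zero (α := K)
      linear_combination h
    · linear_combination h
  obtain ⟨f, B, C, hfm, hfi, hfn, hf0, hfB, hB, hC, hCs, -⟩ := seed_odd (K := K) h2 (k := 3) le_rfl
  have hCu : IsUnit (ThU.comp f 3).det := by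
    rw [← hfB]
    exact (Matrix.isUnit_iff_isUnit_det _).1 B.isUnit
  have hCd : (C : Matrix (Fin 3) (Fin 3) K).det = -1 := by
    rcases hK (C : Matrix (Fin 3) (Fin 3) K).det with h | h | h
    · exfalso
      apply hCs
      rw [h]
      exact IsSquare.zero
    · exfalso
      apply hCs
      rw [h]
      exact IsSquare.one
    · exact h
  have hBd : (B : Matrix (Fin 3) (Fin 3) K).det = 1 := by
    rw [← hC, Units.val_mul, det_mul, hCd]
    norm_num
  have hf1 : f.coeff 0 = -1 := by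
    rw [hfB, comp3, det_fin_three] at hBd
    simp at hBd
    linear_combination -hBd
  have hx := seed_comm qD hB
  refine ⟨mL qD 3 B, hx, fun g hg => ?_⟩
  have hV : (q0 qD 3).ND ⊤ := q0_ND qD hD
  have hfrT : finrank K (⊤ : Submodule K (V0 K D 3)) = 2 * 3 + 1 := by
    rw [finrank_top, V0_finrank, hD1]
  have hn : (commutator (IG (q0 qD 3))).Normal := inferInstance
  -- a triangular system
  obtain ⟨l, hl0, w, w', hw, h1, h4⟩ := tri1 (q0 qD 3) h2 3 ⊤
    ((g : V0 K D 3 ≃ₗ[K] V0 K D 3) : V0 K D 3 →ₗ[K] V0 K D 3) hV hfrT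
    ⟨fun _ _ => trivial, fun x _ => g.2 x⟩
  obtain ⟨a, ha⟩ : ∃ a : Matrix (Fin 3) (Fin 3) K,
    a = Matrix.of fun i j => (q0 qD 3).h (w' i) ((g : V0 K D 3 ≃ₗ[K] V0 K D 3) (w j)) := ⟨_, rfl⟩
  have hau : ∀ i j, j < i → a i j = 0 := fun i j hij => by
    rw [ha]
    exact h1 i j hij
  have had : ∀ i, a i i = l i := fun i => by
    rw [ha]
    exact h4 i
  have hdet : a.det = ∏ i, a i i := det_of_upperTriangular (fun i j hij => hau i j hij)
  have hdu : IsUnit a.det := by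
    rw [hdet, isUnit_iff_ne_zero]
    refine Finset.prod_ne_zero_iff.2 fun i _ => ?_
    rw [had]
    exact hl0 i
  obtain ⟨P, s, hP⟩ := std_of_sysB qD hD g (a := a) ⟨w, w', hw, fun i j => by rw [ha]; rfl⟩ hdu
  obtain ⟨l', hl', v, hv, u, hu, hg'⟩ := ldu qD hP hdu
  have hlc := low_comm qD hB hl'
  have hvc := up_comm qD hB hv
  have hgc : P⁻¹ * g * P ∈ commutator (IG (q0 qD 3)) := by
    have h := hn.conj_mem g hg P⁻¹
    rwa [inv_inv] at h
  have hmc : mL qD 3 u * oD qD 3 s ∈ commutator (IG (q0 qD 3)) := by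
    have e : mL qD 3 u * oD qD 3 s = l'⁻¹ * (P⁻¹ * g * P) * v⁻¹ := by
      rw [hg']
      group
    rw [e]
    exact Subgroup.mul_mem _ (Subgroup.mul_mem _ (Subgroup.inv_mem _ hlc) hgc) (Subgroup.inv_mem _ hvc)
  obtain ⟨hs, hsq⟩ := mid_one h2 (by omega) qD hD hD1 hmc
  -- the determinant
  have hd1 : a.det = 1 := by
    rw [hu] at hsq
    rcases hK a.det with h | h | h
    · rw [h] at hdu
      exact absurd hdu not_isUnit_zero
    · exact h
    · exfalso
      rw [h] at hsq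
      obtain ⟨r, hr⟩ := hsq
      rcases hK r with h5 | h5 | h5
      · rw [h5] at hr
        apply one_ne_zero (α := K)
        linear_combination -hr
      · rw [h5] at hr
        apply h2
        linear_combination -hr
      · rw [h5] at hr
        apply h2
        linear_combination -hr
  -- the factorization
  have hfac : Fac2 f a := by
    by_cases hne : ∃ i j, a i i ≠ a j j
    · obtain ⟨S, T, hS, hT, h⟩ := ThU.fact hfm hfn hf0 a hau (by rw [← hdet, hd1]) hne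
      exact ⟨S, T, hS, hT, Or.inl h⟩
    · push Not at hne
      have hc : a 0 0 = 1 := by
        rw [hdet, Fin.prod_univ_three, hne 1 0, hne 2 0] at hd1
        rcases hK (a 0 0) with h | h | h
        · rw [h] at hd1
          exfalso
          apply one_ne_zero (α := K)
          linear_combination -hd1
        · exact h
        · rw [h] at hd1
          exfalso
          apply h2
          linear_combination -hd1
      have ea : a = !![1, a 0 1, a 0 2; 0, 1, a 1 2; 0, 0, 1] := by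
        ext i j
        fin_cases i <;> fin_cases j
        · exact hc
        · rfl
        · rfl
        · exact hau 1 0 (by decide)
        · exact (hne 1 0).trans hc
        · rfl
        · exact hau 2 0 (by decide)
        · exact hau 2 1 (by decide)
        · exact (hne 2 0).trans hc
      rw [ea]
      exact uni3 h3 hK hfm hfi hfn hf1 _ _ _
  -- the product
  have hprod : ∃ r r' : IG (q0 qD 3), l' * mL qD 3 u * v =
      r * mL qD 3 B * r⁻¹ * (r' * mL qD 3 B * r'⁻¹) := by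
    obtain ⟨S, T, hS, hT, h | h⟩ := hfac
    · rw [← hu, ← hfB] at h
      exact main_block qD hB hl' hv hS hT h
    · rw [← hu, ← hfB] at h
      exact main_block2 qD hB hl' hv hS hT h
  obtain ⟨r, r', hr⟩ := hprod
  rw [hs, map_one, mul_one, hr] at hg'
  obtain ⟨r0, hr0, e0⟩ := adj1 h2 (by omega) qD hD hD1 hB hC hCs (P * r)
  obtain ⟨r1, hr1, e1⟩ := adj1 h2 (by omega) qD hD hD1 hB hC hCs (P * r')
  refine ⟨1, Subgroup.one_mem _, fun y => by rw [one_mul, mul_one], r0, hr0, r1, hr1, ?_⟩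
  rw [one_mul, ← e0, ← e1]
  have e : g = P * (P⁻¹ * g * P) * P⁻¹ := by group
  rw [e, hg']
  group

end ThO7
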