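import Pool.Agent.ThO7.Two
import Pool.Agent.ThO7.Thr

/-! # The main theorem in dimension 7 -/

namespace ThO7
open Matrix Module ThQ ThO

variable {K V : Type*} [Field K] [AddCommGroup V] [Module K V]

/-- The main theorem for quadratic forms in dimension 7. -/
theorem main_Q7 [Finite K] [Finite V] (h2 : (2 : K) ≠ 0) (q : QF K V) (hq : q.ND ⊤)
    (hV : finrank K V = 7) : TP (IG q) := by
  have : FiniteDimensional K V := Module.Finite.of_finite
  by_cases hK : 4 ≤ Nat.card K
  · have hf : finrank K (⊤ : Submodule K V) = 2 * 2 + 3 := by rw [finrank_top, hV]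
    obtain ⟨w, w', h⟩ := hyp_ex3 q 2 ⊤ hq hf
    obtain ⟨Φ, hΦ⟩ := to_V0 q h
    have hD : (q.restr (q.Dp ⊤ w w')).ND ⊤ := by
      intro x _ hx
      have h1 := Dp_ND q hq h x.1 x.2 (fun y hy => hx ⟨y, hy⟩ trivial)
      exact Subtype.ext h1
    have hD3 : finrank K (q.Dp ⊤ w w') = 3 := by
      have := Dp_finrank q h
      rw [hf, Fintype.card_fin] at this
      omega
    have h1 : TP (IG (q0 (q.restr (q.Dp ⊤ w w')) 2)) :=
      main_V02 h2 hK (q.restr (q.Dp ⊤ w w')) hD hD3
    exact h1.transport (IG.congr Φ hΦ)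
  · have hK3 : ∀ x : K, x = 0 ∨ x = 1 ∨ x = -1 := by
      classical
      have : Fintype K := Fintype.ofFinite K
      by_contra hcon
      push Not at hcon
      obtain ⟨x, hx0, hx1, hx2⟩ := hcon
      have h11 : (1 : K) ≠ -1 := by
        intro h
        apply h2
        linear_combination h
      have h3 : ({0, 1, -1, x} : Finset K).card = 4 := by
        rw [Finset.card_insert_of_notMem, Finset.card_insert_of_notMem, Finset.card_insert_of_notMem,
          Finset.card_singleton]
        · simpa using fun h : -1 = x => hx2 h.symm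
        · simp only [Finset.mem_insert, Finset.mem_singleton, not_or]
          exact ⟨h11, fun h => hx1 h.symm⟩
        · simp only [Finset.mem_insert, Finset.mem_singleton, not_or]
          exact ⟨zero_ne_one, fun h => one_ne_zero (neg_eq_zero.1 h.symm), fun h => hx0 h.symm⟩
      have h4 := Finset.card_le_univ ({0, 1, -1, x} : Finset K)
      rw [h3, ← Nat.card_eq_fintype_card] at h4
      exact hK h4
    have hf : finrank K (⊤ : Submodule K V) = 2 * 3 + 1 := by rw [finrank_top, hV]
    obtain ⟨l, -, w, w', h, -⟩ := tri1 q h2 3 ⊤ LinearMap.id hq hf ⟨fun _ _ => trivial, fun _ _ => rfl⟩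
    obtain ⟨Φ, hΦ⟩ := to_V0 q h
    have hD : (q.restr (q.Dp ⊤ w w')).ND ⊤ := by
      intro x _ hx
      have h1 := Dp_ND q hq h x.1 x.2 (fun y hy => hx ⟨y, hy⟩ trivial)
      exact Subtype.ext h1
    have hD1 : finrank K (q.Dp ⊤ w w') = 1 := by
      have := Dp_finrank q h
      rw [hf, Fintype.card_fin] at this
      omega
    have h1 : TP (IG (q0 (q.restr (q.Dp ⊤ w w')) 3)) :=
      main_V03 h2 hK3 (q.restr (q.Dp ⊤ w w')) hD hD1
    exact h1.transport (IG.congr Φ hΦ)

end ThO7
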