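import Pool.Agent.ThO.OCon
import Pool.Agent.ThO.OYp
import Pool.Agent.ThO.OTri
import Pool.Agent.ThO.OMid
import Pool.Agent.ThQ.Ldu
import Pool.Agent.ThO.OAdj

/-! # Conjugation by elements of the commutator subgroup, all `k ≥ 1`

A copy of `Pool/Agent/ThO/OAdj.lean`; only the generation of the general linear group is new. -/

namespace ThO7
open Matrix Module ThQ ThO
open scoped commutatorElement

variable {K D : Type*} [Field K] [AddCommGroup D] [Module K D] {k : ℕ}

/-- transvections are commutators in odd characteristic -/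
theorem tv_comm2 (h2 : (2 : K) ≠ 0) (i j : Fin k) (h : i ≠ j) (c : K) :
    tvU i j h c ∈ commutator ((Matrix (Fin k) (Fin k) K)ˣ) := by
  have h20 : (-2 : K) ≠ 0 := neg_ne_zero.2 h2
  obtain ⟨e, he⟩ : ∃ e : K, e = c * (-2)⁻¹ := ⟨_, rfl⟩
  have hc : c = -2 * e := by rw [he]; field_simp
  have key : tvU i j h c * (tvU i j h e * dgU i (-1 : Kˣ)) =
      dgU i (-1 : Kˣ) * tvU i j h e := by
    apply Units.ext
    show transvection i j c * (transvection i j e * diagonal (Function.update 1 i ((-1 : Kˣ) : K))) =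
      diagonal (Function.update 1 i ((-1 : Kˣ) : K)) * transvection i j e
    ext a b
    have hv : ((-1 : Kˣ) : K) = -1 := rfl
    rw [← Matrix.mul_assoc, transvection_mul_transvection_same _ _ h, Matrix.mul_diagonal, Matrix.diagonal_mul,
      transvection, transvection, Matrix.add_apply, Matrix.add_apply, Matrix.single_apply, Matrix.single_apply,
      Matrix.one_apply, hv]
    by_cases hab : i = a ∧ j = b
    · obtain ⟨rfl, rfl⟩ := hab
      rw [Function.update_self, Function.update_of_ne (Ne.symm h), if_neg h, if_pos ⟨rfl, rfl⟩, if_pos ⟨rfl, rfl⟩,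
        Pi.one_apply]
      linear_combination hc
    · rw [if_neg hab, if_neg hab, add_zero]
      by_cases hab2 : a = b
      · subst hab2
        ring
      · rw [if_neg hab2]
        ring
  have h3 : tvU i j h c = ⁅dgU i (-1 : Kˣ), tvU i j h e⁆ := by
    rw [commutatorElement_def, ← key]
    group
  rw [h3]
  exact Subgroup.commutator_mem_commutator (Subgroup.mem_top _) (Subgroup.mem_top _)

theorem gl_ind2 (h20 : (2 : K) ≠ 0) (_hk : 0 < k) {P : (Matrix (Fin k) (Fin k) K)ˣ → Prop}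
    (h1 : ∀ u ∈ commutator ((Matrix (Fin k) (Fin k) K)ˣ), P u) (h2 : ∀ i t, P (dgU i t))
    (hm : ∀ u v, P u → P v → P (u * v)) (u : (Matrix (Fin k) (Fin k) K)ˣ) : P u := by
  have hone : P 1 := h1 1 (one_mem _)
  obtain ⟨L, L', D, hD⟩ :=
    Matrix.Pivot.exists_list_transvec_mul_diagonal_mul_list_transvec (u : Matrix (Fin k) (Fin k) K)
  have hL : ∀ L : List (TransvectionStruct (Fin k) K), ∃ v : (Matrix (Fin k) (Fin k) K)ˣ,
      (v : Matrix (Fin k) (Fin k) K) = (L.map TransvectionStruct.toMatrix).prod ∧ P v := by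
    intro L
    induction L with
    | nil => exact ⟨1, by simp, hone⟩
    | cons t L ih =>
      obtain ⟨v, hv, hPv⟩ := ih
      refine ⟨tvU t.i t.j t.hij t.c * v, ?_, hm _ _ (h1 _ (tv_comm2 h20 _ _ _ _)) hPv⟩
      rw [List.map_cons, List.prod_cons, Units.val_mul, hv]
      rfl
  obtain ⟨v, hv, hPv⟩ := hL L
  obtain ⟨v', hv', hPv'⟩ := hL L'
  have hDd : (diagonal D : Matrix (Fin k) (Fin k) K) =
      ((v⁻¹ * u * v'⁻¹ : (Matrix (Fin k) (Fin k) K)ˣ) : Matrix (Fin k) (Fin k) K) := by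
    rw [Units.val_mul, Units.val_mul, hD, ← hv, ← hv']
    simp only [mul_assoc, Units.mul_inv, mul_one]
    rw [← mul_assoc, Units.inv_mul, one_mul]
  have hDu : ∀ i, IsUnit (D i) := by
    have h3 : IsUnit (diagonal D : Matrix (Fin k) (Fin k) K) := by
      rw [hDd]
      exact Units.isUnit _
    rw [isUnit_diagonal, Pi.isUnit_iff] at h3
    exact h3
  have hs : ∀ s : Finset (Fin k), ∃ w : (Matrix (Fin k) (Fin k) K)ˣ,
      (w : Matrix (Fin k) (Fin k) K) = diagonal (fun i => if i ∈ s then D i else 1) ∧ P w := by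
    intro s
    induction s using Finset.induction_on with
    | empty =>
      refine ⟨1, ?_, hone⟩
      rw [Units.val_one, ← diagonal_one]
      congr 1
    | insert a s ha ih =>
      obtain ⟨w, hw, hPw⟩ := ih
      refine ⟨dgU a (hDu a).unit * w, ?_, hm _ _ (h2 _ _) hPw⟩
      rw [Units.val_mul, hw]
      show diagonal (Function.update 1 a (((hDu a).unit : Kˣ) : K)) * _ = _
      rw [diagonal_mul_diagonal]
      congr 1
      funext i
      by_cases hi : i = a
      · subst hi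
        rw [Function.update_self, if_neg ha, mul_one, if_pos (Finset.mem_insert_self _ _)]
        rfl
      · rw [Function.update_of_ne hi, Pi.one_apply, one_mul]
        by_cases his : i ∈ s
        · rw [if_pos his, if_pos (Finset.mem_insert_of_mem his)]
        · rw [if_neg his, if_neg]
          rw [Finset.mem_insert, not_or]
          exact ⟨hi, his⟩
  obtain ⟨w, hw, hPw⟩ := hs Finset.univ
  have hu : u = v * w * v' := by
    apply Units.ext
    rw [Units.val_mul, Units.val_mul, hD, ← hv, ← hv', hw]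
    simp only [Finset.mem_univ, if_true]
  rw [hu]
  exact hm _ _ (hm _ _ hPv hPw) hPv'

private theorem oadj_mem {G : Type*} [Group G] {g : G} :
    g ∈ commutator G ↔ (Abelianization.of g : Abelianization G) = 1 := by
  rw [← MonoidHom.mem_ker, Abelianization.ker_of]

private theorem oadj_det (i : Fin k) (t : Kˣ) :
    ((dgU i t : (Matrix (Fin k) (Fin k) K)ˣ) : Matrix (Fin k) (Fin k) K).det = (t : K) := by
  show (diagonal (Function.update 1 i (t : K))).det = _
  rw [det_diagonal, Finset.prod_update_of_mem (Finset.mem_univ i)]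
  simp

private theorem oadj_dg_mul (i : Fin k) (s t : Kˣ) :
    (dgU i (s * t) : (Matrix (Fin k) (Fin k) K)ˣ) = dgU i s * dgU i t := by
  apply Units.ext
  show diagonal (Function.update 1 i ((s * t : Kˣ) : K)) =
    diagonal (Function.update 1 i (s : K)) * diagonal (Function.update 1 i (t : K))
  rw [diagonal_mul_diagonal]
  congr 1
  funext j
  by_cases h : j = i
  · subst h
    simp
  · simp [Function.update_of_ne h]

private theorem oadj_dg_one (i : Fin k) : (dgU i (1 : Kˣ) : (Matrix (Fin k) (Fin k) K)ˣ) = 1 := by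
  have h := oadj_dg_mul i (1 : Kˣ) (1 : Kˣ)
  rw [mul_one] at h
  exact (mul_eq_left.1 h.symm)

private theorem oadj_vm0 (qD : QF K D) (i : Fin k) {m : K} (hm : m ≠ 0) :
    (q0 qD k).Q (vm K D i m) ≠ 0 := by
  rwa [vm_Q]

private theorem oadj_D0 (qD : QF K D) {e : D} (he : qD.Q e ≠ 0) :
    (q0 qD k).Q ((0, e, 0) : V0 K D k) ≠ 0 := by
  rw [q0_Q]
  show (0 : Fin k → K) ⬝ᵥ (0 : Fin k → K) + qD.Q e ≠ 0
  rwa [dotProduct_zero, zero_add]

private theorem oadj_D1 (qD : QF K D) (e : D) :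
    (q0 qD k).Q ((0, e, 0) : V0 K D k) = qD.Q e := by
  rw [q0_Q]
  show (0 : Fin k → K) ⬝ᵥ (0 : Fin k → K) + qD.Q e = _
  rw [dotProduct_zero, zero_add]

/-- two reflections with the same norm agree modulo commutators -/
private theorem oadj_refl {V : Type*} [AddCommGroup V] [Module K V] (h2 : (2 : K) ≠ 0) (q : QF K V)
    {e f : V} (he : q.Q e ≠ 0) (hf : q.Q f ≠ 0) (h : IsSquare (q.Q e * q.Q f)) :
    (Abelianization.of (rE q e he) : Abelianization (IG q)) = Abelianization.of (rE q f hf) := by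
  have h3 := oadj_mem.1 (refl_pair q h2 he hf h)
  have h4 : (Abelianization.of (rE q f hf) : Abelianization (IG q)) *
      Abelianization.of (rE q f hf) = 1 := by
    rw [← map_mul, rE_sq, map_one]
  rw [map_mul] at h3
  exact mul_right_cancel (h3.trans h4.symm)

/-- `gl_ind` for `P u = (mL u * (mL (dgU i (det u)))⁻¹ ∈ [G, G])`: commutators have determinant `1`, `dgU i 1 = 1`; for `u = dgU j t`: both
`mL (dgU j t)` and `mL (dgU i t)` are, modulo commutators, `rE (vm j 1) rE (vm j t)`, `rE (vm i 1) rE (vm i t)` (`dg_rE`, `refl_pair`);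
products: the quotient by `[G, G]` is commutative. -/
theorem mL_dg (h2 : (2 : K) ≠ 0) (hk : 0 < k) (qD : QF K D) (i : Fin k)
    (u : (Matrix (Fin k) (Fin k) K)ˣ) {t : Kˣ} (ht : (t : K) = (u : Matrix (Fin k) (Fin k) K).det) :
    mL qD k u * (mL qD k (dgU i t))⁻¹ ∈ commutator (IG (q0 qD k)) := by
  have key : ∀ t : Kˣ, (t : K) = (u : Matrix (Fin k) (Fin k) K).det →
      (Abelianization.of (mL qD k u) : Abelianization (IG (q0 qD k))) =
        Abelianization.of (mL qD k (dgU i t)) := by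
    refine gl_ind2 h2 hk (P := fun u => ∀ t : Kˣ, (t : K) = (u : Matrix (Fin k) (Fin k) K).det →
      (Abelianization.of (mL qD k u) : Abelianization (IG (q0 qD k))) =
        Abelianization.of (mL qD k (dgU i t))) ?_ ?_ ?_ u
    · intro u hu t ht
      let dt : (Matrix (Fin k) (Fin k) K)ˣ →* Kˣ := Units.map (Matrix.detMonoidHom)
      have h3 : dt u = 1 := by
        have : u ∈ dt.ker := Abelianization.commutator_subset_ker _ hu
        exact this
      have h4 : (u : Matrix (Fin k) (Fin k) K).det = 1 := congrArg Units.val h3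
      have h5 : t = 1 := Units.ext (by rw [ht, h4, Units.val_one])
      have h6 : u ∈ ((Abelianization.of (G := IG (q0 qD k))).comp (mL qD k)).ker :=
        Abelianization.commutator_subset_ker _ hu
      rw [h5, oadj_dg_one, map_one, map_one]
      exact h6
    · intro j s t ht
      rw [oadj_det] at ht
      have hst : t = s := Units.ext ht
      subst hst
      have h1 : (1 : K) ≠ 0 := one_ne_zero
      have ht0 : (t : K) ≠ 0 := t.ne_zero
      have hj := dg_rE qD j t (m1 := 1) (m2 := (t : K)) (mul_one _) (oadj_vm0 qD j h1)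
        (oadj_vm0 qD j ht0)
      have hi := dg_rE qD i t (m1 := 1) (m2 := (t : K)) (mul_one _) (oadj_vm0 qD i h1)
        (oadj_vm0 qD i ht0)
      rw [hj, hi, map_mul, map_mul,
        oadj_refl h2 (q0 qD k) (oadj_vm0 qD j h1) (oadj_vm0 qD i h1) ⟨1, by rw [vm_Q, vm_Q]⟩,
        oadj_refl h2 (q0 qD k) (oadj_vm0 qD j ht0) (oadj_vm0 qD i ht0)
          ⟨(t : K), by rw [vm_Q, vm_Q]⟩]
    · intro u v hu hv t ht
      have hud : IsUnit (u : Matrix (Fin k) (Fin k) K).det :=
        (Matrix.isUnit_iff_isUnit_det _).1 u.isUnit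
      have hvd : IsUnit (v : Matrix (Fin k) (Fin k) K).det :=
        (Matrix.isUnit_iff_isUnit_det _).1 v.isUnit
      have h3 : t = hud.unit * hvd.unit := by
        apply Units.ext
        rw [ht, Units.val_mul, Units.val_mul, det_mul]
        rfl
      rw [h3, oadj_dg_mul, map_mul, map_mul, map_mul, map_mul, hu hud.unit rfl, hv hvd.unit rfl]
  rw [oadj_mem, map_mul, map_inv, key t ht, mul_inv_cancel]

theorem nsq_mul [Finite K] (h2 : (2 : K) ≠ 0) {a b : K} (ha : ¬ IsSquare a)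
    (hb : ¬ IsSquare b) : IsSquare (a * b) := by
  classical
  let _ : Fintype K := Fintype.ofFinite K
  have hc : ringChar K ≠ 2 := by
    intro h
    apply h2
    have h3 := ringChar.Nat.cast_ringChar (R := K)
    rw [h] at h3
    exact_mod_cast h3
  have ha0 : a ≠ 0 := by
    rintro rfl
    exact ha (IsSquare.zero)
  have hb0 : b ≠ 0 := by
    rintro rfl
    exact hb (IsSquare.zero)
  rw [← quadraticChar_one_iff_isSquare (mul_ne_zero ha0 hb0), map_mul,
    quadraticChar_neg_one_iff_not_isSquare.2 ha, quadraticChar_neg_one_iff_not_isSquare.2 hb]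
  norm_num

private theorem oadj_oD_comm (qD : QF K D) {s : IG qD} (hs : s ∈ commutator (IG qD)) :
    oD qD k s ∈ commutator (IG (q0 qD k)) := by
  have h6 : s ∈ ((Abelianization.of (G := IG (q0 qD k))).comp (oD qD k)).ker :=
    Abelianization.commutator_subset_ker _ hs
  rw [oadj_mem]
  exact h6

/-- `s` even.  `rk = 0`: `s = 1`, `c = 1`.  `rk = 2`: `pick_e` (with `wd_ex`), `two_refl`: `s = rE e * rE f`.  If `Q e Q f` is a square: `c = 1`
(`refl_pair` in `IG qD`; `oD` maps commutators to commutators).  Otherwise `c = mL C`, `C * C = B`, `det C = t` is not a square, so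
`t Q e Q f` is a square; `f' ∈ D` with `Q f' = t Q e` (`univ3`); modulo commutators `mL C = mL (dgU i t)` (`mL_dg`)
`= oD (rE e rE f')` (`dg_pair`; reflections have square `1`), and `rE f' rE f` is a commutator (`refl_pair`), so
`oD s * mL C` is one.  `mL C` commutes with `X = mL B * oD y` as `C B = B C` (`oD_mL`). -/
theorem even_AA [Finite K] [Finite D] (h2 : (2 : K) ≠ 0) (hk : 0 < k) (qD : QF K D) (hD : qD.ND ⊤)
    (hD3 : finrank K D = 3) {B C : (Matrix (Fin k) (Fin k) K)ˣ} (hC : C * C = B)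
    (hCs : ¬ IsSquare (C : Matrix (Fin k) (Fin k) K).det) (y s : IG qD)
    (hs : rk ⊤ ((s : D ≃ₗ[K] D) : D →ₗ[K] D) % 2 = 0) : oD qD k s ∈ AA qD k (XX qD B y) := by
  have hfd : FiniteDimensional K D := Module.Finite.of_finite
  have hle : rk ⊤ ((s : D ≃ₗ[K] D) : D →ₗ[K] D) ≤ 3 := by
    have h3 := rk_le (U := (⊤ : Submodule K D)) (G := ((s : D ≃ₗ[K] D) : D →ₗ[K] D))
    rwa [finrank_top, hD3] at h3
  have hcases : rk ⊤ ((s : D ≃ₗ[K] D) : D →ₗ[K] D) = 0 ∨
      rk ⊤ ((s : D ≃ₗ[K] D) : D →ₗ[K] D) = 2 := by omega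
  rcases hcases with h0 | h0
  · have hs1 : s = 1 := by
      rw [rk, Submodule.finrank_eq_zero] at h0
      apply Subtype.ext
      ext x
      have h3 : (s : D ≃ₗ[K] D) x - x ∈
          (⊤ : Submodule K D).map (((s : D ≃ₗ[K] D) : D →ₗ[K] D) - LinearMap.id) :=
        ⟨x, trivial, rfl⟩
      rw [h0, Submodule.mem_bot] at h3
      exact sub_eq_zero.1 h3
    rw [hs1, map_one]
    exact Subgroup.one_mem _
  · obtain ⟨w, d, hw, hw0, hd, hd0⟩ := wd_ex qD hD hD3
    obtain ⟨e, f, he0, hf0, hsf⟩ : ∃ (e f : D) (he0 : qD.Q e ≠ 0) (hf0 : qD.Q f ≠ 0),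
        s = rE qD e he0 * rE qD f hf0 := by
      obtain ⟨x, hx⟩ := pick_e h2 qD hD hD3 hw hw0 hd hd0 h0
      have he0 : qD.Q ((s : D ≃ₗ[K] D) x - x) ≠ 0 := by rw [hx]; exact hd0
      obtain ⟨f, hf0, hsf⟩ := two_refl qD hD hD3 h0 he0
      exact ⟨_, f, he0, hf0, hsf⟩
    by_cases hsq : IsSquare (qD.Q e * qD.Q f)
    · refine mem_AA.2 ⟨1, by rw [one_mul, mul_one], ?_⟩
      rw [mul_one, hsf]
      exact oadj_oD_comm qD (refl_pair qD h2 he0 hf0 hsq)
    · have hdC : IsUnit (C : Matrix (Fin k) (Fin k) K).det :=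
        (Matrix.isUnit_iff_isUnit_det _).1 C.isUnit
      set t : Kˣ := hdC.unit with ht
      have htC : (t : K) = (C : Matrix (Fin k) (Fin k) K).det := rfl
      obtain ⟨f', -, hf'⟩ := univ3 qD (D := (⊤ : Submodule K D)) hD (by rw [finrank_top, hD3])
        ((t : K) * qD.Q e)
      have hf0' : qD.Q f' ≠ 0 := by
        rw [hf']
        exact mul_ne_zero t.ne_zero he0
      have hsq' : IsSquare (qD.Q f' * qD.Q f) := by
        rw [hf', mul_assoc]
        exact nsq_mul h2 (by rw [htC]; exact hCs) hsq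
      let i : Fin k := ⟨0, by omega⟩
      have h3 := oadj_mem.1 (mL_dg h2 hk qD i C htC)
      have h4 := oadj_mem.1 (dg_pair (k := k) h2 qD i t he0 hf0' hf'.symm)
      rw [map_mul, map_inv, mul_inv_eq_one] at h3
      rw [map_mul, ← h3] at h4
      refine mem_AA.2 ⟨mL qD k C, ?_, ?_⟩
      · have hCB : C * B = B * C := by rw [← hC, mul_assoc]
        rw [XX, ← mul_assoc, ← map_mul, hCB, map_mul, mul_assoc, mul_assoc, oD_mL]
      · have h5 : (Abelianization.of (oD qD k (rE qD f' hf0')) :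
            Abelianization (IG (q0 qD k))) = Abelianization.of (oD qD k (rE qD f hf0)) := by
          have h6 := oadj_mem.1 (oadj_oD_comm (k := k) qD (refl_pair qD h2 hf0' hf0 hsq'))
          have h7 : (Abelianization.of (oD qD k (rE qD f hf0)) :
              Abelianization (IG (q0 qD k))) * Abelianization.of (oD qD k (rE qD f hf0)) = 1 := by
            rw [← map_mul, ← map_mul, rE_sq, map_one, map_one]
          rw [map_mul, map_mul] at h6
          exact mul_right_cancel (h6.trans h7.symm)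
        rw [map_mul, map_mul, h5] at h4
        rw [oadj_mem, hsf, map_mul, map_mul, map_mul, mul_comm]
        exact h4

/-- If `s` is odd, `- s` is even (`par_mul_odd` for `n = 1`; `rk ⊤ (-1) = 3` as `2 ≠ 0`), and `oD (-1)` commutes with `X`. -/
theorem oD_AA [Finite K] [Finite D] (h2 : (2 : K) ≠ 0) (hk : 0 < k) (qD : QF K D) (hD : qD.ND ⊤)
    (hD3 : finrank K D = 3) {B C : (Matrix (Fin k) (Fin k) K)ˣ} (hC : C * C = B)
    (hCs : ¬ IsSquare (C : Matrix (Fin k) (Fin k) K).det) (y s : IG qD) :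
    oD qD k s ∈ AA qD k (XX qD B y) := by
  have hfd : FiniteDimensional K D := Module.Finite.of_finite
  by_cases hs : rk ⊤ ((s : D ≃ₗ[K] D) : D →ₗ[K] D) % 2 = 0
  · exact even_AA h2 hk qD hD hD3 hC hCs y s hs
  · let m : IG qD := ⟨LinearEquiv.neg K, fun x => qD.Q_neg x⟩
    have hm : ∀ x : D, (m : D ≃ₗ[K] D) x = -x := fun x => rfl
    have hmr : rk ⊤ ((m : D ≃ₗ[K] D) : D →ₗ[K] D) = 3 := by
      have h3 := rk_ker (U := (⊤ : Submodule K D)) (G := ((m : D ≃ₗ[K] D) : D →ₗ[K] D))
      have h4 : ((⊤ : Submodule K D) ⊓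
          LinearMap.ker (((m : D ≃ₗ[K] D) : D →ₗ[K] D) - LinearMap.id)) = ⊥ := by
        rw [eq_bot_iff]
        rintro x ⟨-, hx⟩
        have h5 : (m : D ≃ₗ[K] D) x - x = 0 := hx
        rw [hm] at h5
        have h6 : (2 : K) • x = 0 := by
          rw [two_smul, ← neg_eq_zero, neg_add]
          rw [sub_eq_add_neg] at h5
          exact h5
        exact (Submodule.mem_bot K).2 ((smul_eq_zero.1 h6).resolve_left h2)
      rw [h4, finrank_bot, finrank_top, hD3, add_zero] at h3
      exact h3.symm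
    have hiso : ∀ g : IG qD, qD.Iso ⊤ ((g : D ≃ₗ[K] D) : D →ₗ[K] D) := fun g =>
      ⟨fun _ _ => trivial, fun x _ => g.2 x⟩
    have hpar := par_mul_odd qD h2 1 (⊤ : Submodule K D) ((m : D ≃ₗ[K] D) : D →ₗ[K] D)
      ((s : D ≃ₗ[K] D) : D →ₗ[K] D) hD (by rw [finrank_top, hD3]) (hiso m) (hiso s)
    have hms : rk ⊤ ((((m * s : IG qD)) : D ≃ₗ[K] D) : D →ₗ[K] D) % 2 = 0 := by
      have h3 : ((((m * s : IG qD)) : D ≃ₗ[K] D) : D →ₗ[K] D) =
          ((m : D ≃ₗ[K] D) : D →ₗ[K] D) ∘ₗ ((s : D ≃ₗ[K] D) : D →ₗ[K] D) := rfl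
      rw [h3, hpar, hmr]
      omega
    have h4 := even_AA h2 hk qD hD hD3 hC hCs y (m * s) hms
    have hmc : ∀ g : IG qD, m * g = g * m := by
      intro g
      apply Subtype.ext
      apply LinearEquiv.ext
      intro x
      show -((g : D ≃ₗ[K] D) x) = (g : D ≃ₗ[K] D) (-x)
      rw [map_neg]
    have hmm : m * m = 1 := by
      apply Subtype.ext
      apply LinearEquiv.ext
      intro x
      exact neg_neg x
    have h5 : oD qD k m ∈ AA qD k (XX qD B y) := by
      refine mem_AA.2 ⟨oD qD k m, ?_, ?_⟩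
      · rw [XX, ← mul_assoc, oD_mL, mul_assoc, mul_assoc, ← map_mul, ← map_mul, hmc]
      · rw [← map_mul, hmm, map_one]
        exact Subgroup.one_mem _
    have h6 : oD qD k s = oD qD k m * oD qD k (m * s) := by
      rw [← map_mul, ← mul_assoc, hmm, one_mul]
    rw [h6]
    exact Subgroup.mul_mem _ h5 h4

/-- `triB_ex` for `g` (`q0_ND`, `V0_finrank`), `std_of_sysB` (a triangular block with nonzero diagonal is invertible), `ldu`:
`P⁻¹ g P = l * mL u * oD s * v`; `l`, `v` are in the commutator subgroup (`low_comm`, `up_comm`), `oD s ∈ AA`; `mL u` is, modulo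
commutators, `mL (dgU i t)` (`mL_dg`), and this is the inverse of `oD (rE e * rE f)` (`dg_pair`, `univ3`).  `AA` contains the
commutator subgroup, so it is normal. -/
theorem all_AA [Finite K] [Finite D] (h2 : (2 : K) ≠ 0) (hk : 0 < k) (qD : QF K D) (hD : qD.ND ⊤)
    (hD3 : finrank K D = 3) {B C : (Matrix (Fin k) (Fin k) K)ˣ} (hB : SeedQ B) (hC : C * C = B)
    (hCs : ¬ IsSquare (C : Matrix (Fin k) (Fin k) K).det) (y : IG qD) (g : IG (q0 qD k)) :
    g ∈ AA qD k (XX qD B y) := by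
  have hfd : FiniteDimensional K D := Module.Finite.of_finite
  have hf : finrank K (⊤ : Submodule K (V0 K D k)) = 2 * k + 3 := by
    rw [finrank_top, V0_finrank, hD3]
  obtain ⟨l, hl0, w, w', hw, h1, h3⟩ := triB_ex (q0 qD k) h2 k ⊤
    ((g : V0 K D k ≃ₗ[K] V0 K D k) : V0 K D k →ₗ[K] V0 K D k) (q0_ND qD hD) hf
    ⟨fun _ _ => trivial, fun x _ => g.2 x⟩
  set a : Matrix (Fin k) (Fin k) K :=
    Matrix.of fun i j => (q0 qD k).h (w' i) ((g : V0 K D k ≃ₗ[K] V0 K D k) (w j)) with ha
  have htri : a.BlockTriangular id := fun i j hij => h1 i j hij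
  have hdet : IsUnit a.det := by
    rw [Matrix.det_of_isUpperTriangular htri, isUnit_iff_ne_zero]
    refine Finset.prod_ne_zero_iff.2 fun i _ => ?_
    have : a i i = l i := h3 i
    rw [this]
    exact hl0 i
  obtain ⟨P, s, hP⟩ := std_of_sysB qD hD g (a := a) ⟨w, w', hw, fun i j => rfl⟩ hdet
  obtain ⟨n, hn, v, hv, u, -, hg⟩ := ldu qD hP hdet
  have hmL : mL qD k u ∈ AA qD k (XX qD B y) := by
    have hdu : IsUnit (u : Matrix (Fin k) (Fin k) K).det :=
      (Matrix.isUnit_iff_isUnit_det _).1 u.isUnit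
    let i : Fin k := ⟨0, by omega⟩
    obtain ⟨w, d, -, -, -, hd0⟩ := wd_ex qD hD hD3
    obtain ⟨f, -, hf'⟩ := univ3 qD (D := (⊤ : Submodule K D)) hD (by rw [finrank_top, hD3])
      ((hdu.unit : K) * qD.Q d)
    have hf0 : qD.Q f ≠ 0 := by
      rw [hf']
      exact mul_ne_zero hdu.unit.ne_zero hd0
    have h4 := comm_le_AA qD (XX qD B y) (mL_dg h2 hk qD i u (t := hdu.unit) rfl)
    have h5 := comm_le_AA qD (XX qD B y) (dg_pair (k := k) h2 qD i hdu.unit hd0 hf0 hf'.symm)
    have h6 := oD_AA h2 hk qD hD hD3 hC hCs y (rE qD d hd0 * rE qD f hf0)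
    have h7 : mL qD k u = mL qD k u * (mL qD k (dgU i hdu.unit))⁻¹ *
        (mL qD k (dgU i hdu.unit) * oD qD k (rE qD d hd0 * rE qD f hf0)) *
        (oD qD k (rE qD d hd0 * rE qD f hf0))⁻¹ := by group
    rw [h7]
    exact Subgroup.mul_mem _ (Subgroup.mul_mem _ h4 h5) (Subgroup.inv_mem _ h6)
  have hmem : P⁻¹ * g * P ∈ AA qD k (XX qD B y) := by
    rw [hg]
    exact Subgroup.mul_mem _ (Subgroup.mul_mem _ (Subgroup.mul_mem _
      (comm_le_AA qD _ (low_comm qD hB hn)) hmL) (oD_AA h2 hk qD hD hD3 hC hCs y s))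
      (comm_le_AA qD _ (up_comm qD hB hv))
  have h4 : g = (P * (P⁻¹ * g * P) * P⁻¹ * (P⁻¹ * g * P)⁻¹) * (P⁻¹ * g * P) := by group
  rw [h4]
  refine Subgroup.mul_mem _ (comm_le_AA qD _ ?_) hmem
  exact Subgroup.commutator_mem_commutator (Subgroup.mem_top P) (Subgroup.mem_top (P⁻¹ * g * P))

/-- `r0 = r * c` -/
theorem adj_XX [Finite K] [Finite D] (h2 : (2 : K) ≠ 0) (hk : 0 < k) (qD : QF K D) (hD : qD.ND ⊤)
    (hD3 : finrank K D = 3) {B C : (Matrix (Fin k) (Fin k) K)ˣ} (hB : SeedQ B) (hC : C * C = B)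
    (hCs : ¬ IsSquare (C : Matrix (Fin k) (Fin k) K).det) (y : IG qD) (r : IG (q0 qD k)) :
    ∃ r0 ∈ commutator (IG (q0 qD k)), r * XX qD B y * r⁻¹ = r0 * XX qD B y * r0⁻¹ := by
  obtain ⟨c, hc, hrc⟩ := mem_AA.1 (all_AA h2 hk qD hD hD3 hB hC hCs y r)
  refine ⟨r * c, hrc, ?_⟩
  have h1 : c * XX qD B y * c⁻¹ = XX qD B y := by rw [hc, mul_inv_cancel_right]
  calc r * XX qD B y * r⁻¹ = r * (c * XX qD B y * c⁻¹) * r⁻¹ := by rw [h1]
    _ = r * c * XX qD B y * (r * c)⁻¹ := by group

end ThO7
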