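import Pool.Agent.ThO.OAlt

/-! # The blocks of an even isometry in dimension 7, `k = 2` -/

namespace ThO7
open Matrix Module ThQ ThO

variable {K V : Type*} [Field K] [AddCommGroup V] [Module K V] (q : QF K V)

/-- one hyperbolic pair with a prescribed corner -/
theorem corner5 [Finite K] [FiniteDimensional K V] (h2 : (2 : K) ≠ 0) {U : Submodule K V} {G : V →ₗ[K] V}
    (hU : q.ND U) (hf : finrank K U = 5) (hG : q.Iso U G) (hpar : rk U G % 2 = 1)
    (hne : ∃ x ∈ U, G x ≠ -x) {c : K} (hc : c ≠ 0) : TriB q U G 1 (fun _ => c) := by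
  have hsq : ∀ ε : K, ε ^ 2 = 1 → ε = 1 ∨ ε = -1 := fun ε h =>
    mul_self_eq_one_iff.1 ((sq ε).symm.trans h)
  have e0 : (Fin.cons c (Fin.elim0 : Fin 0 → K) : Fin 1 → K) = fun _ => c := by
    funext i
    fin_cases i
    rfl
  by_cases hw : ∃ w ∈ U, q.Q w = 0 ∧ q.h w (G w) ≠ 0
  · obtain ⟨w, hw, h0, hz⟩ := hw
    rw [← e0]
    exact stepB q hU hG hw h0 hz (n := 0) (by omega) ⟨Fin.elim0, Fin.elim0, ⟨fun i => i.elim0,
      fun i => i.elim0, fun i => i.elim0, fun i => i.elim0, fun i => i.elim0, fun i => i.elim0,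
      fun i => i.elim0⟩, fun i => i.elim0, fun i => i.elim0⟩ hc
  · push Not at hw
    obtain ⟨d, hE⟩ := sym_exc5 q hU (by omega) hG (fun w1 h1 h3 => hw w1 h1 h3)
    obtain ⟨ε, hε, rfl⟩ := exc_odd q h2 hU (n := 2) (by omega) hG hE
    rcases hsq ε hε with rfl | rfl
    · rw [mul_one] at hE
      have h3 := exc_even q hU hG hE
      omega
    · rw [mul_neg, mul_one] at hE
      have hs : ¬ Scal U G := by
        rintro ⟨l, hl⟩
        obtain ⟨e1, e2⟩ := exc_scal q hU (by
          rintro rfl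
          rw [finrank_bot] at hf
          omega) hG hE hl
        obtain ⟨x, hx, h3⟩ := hne
        apply h3
        have e3 : l = -1 := by
          apply mul_left_cancel₀ h2
          rw [← e2, mul_neg, mul_one]
        rw [hl x hx, e3, neg_one_smul]
      obtain ⟨w1, w2, hb⟩ : ∃ w1 w2, Blk q U G w1 w2 := by
        by_contra hcon
        apply hs
        refine scal_of q hU (by omega) hG fun w hw h0 => ?_
        by_contra hne
        obtain ⟨w2, hb⟩ := blk_ex q hU hG hE hw h0 fun t ht => hne ⟨t, ht⟩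
        exact hcon ⟨w, w2, hb⟩
      have h1 : SysB q (cmp4 q U G w1 w2) G (1 : Matrix (Fin 0) (Fin 0) K) :=
        ⟨Fin.elim0, Fin.elim0, ⟨fun i => i.elim0, fun i => i.elim0,
          fun i => i.elim0, fun i => i.elim0, fun i => i.elim0, fun i => i.elim0, fun i => i.elim0⟩,
          fun i => i.elim0⟩
      obtain ⟨v, v', hv, ha⟩ := blk_sysX q hU hG hE hb c h1
      refine ⟨fun _ => v (Sum.inl 0), fun _ => v' (Sum.inl 0), ⟨fun _ => hv.mem _, fun _ => hv.mem' _,
        fun _ => hv.sing _, fun _ => hv.sing' _, fun _ _ => hv.iso _ _, fun _ _ => hv.iso' _ _,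
        fun i j => ?_⟩, fun i j hij => ?_, fun i => ?_⟩
      · rw [hv.dual, if_pos rfl, if_pos (Subsingleton.elim _ _)]
      · rw [Subsingleton.elim i j] at hij
        exact absurd hij (lt_irrefl _)
      · rw [ha, fromBlocks_apply₁₁, Matrix.smul_apply, Matrix.one_apply_eq, smul_eq_mul, mul_one]

/-- The blocks of an even isometry. -/
theorem alt_two [Finite K] [FiniteDimensional K V] (h2 : (2 : K) ≠ 0) (hK : ∃ c : K, c ≠ 0 ∧ c * c ≠ 1)
    {U : Submodule K V} {G : V →ₗ[K] V} (hU : q.ND U) (hf : finrank K U = 7)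
    (hG : q.Iso U G) (hpar : rk U G % 2 = 0) :
    AltA q U G 2 ∨ SysB q U G (1 : Matrix (Fin 2) (Fin 2) K) ∨
    ∃ c : K, c ≠ 0 ∧ ∃ i0 j0 : Fin 2, i0 ≠ j0 ∧
      SysB q U G (Matrix.of fun i j => (if i = j then (-1 : K) else 0) +
        (if i = i0 ∧ j = j0 then c else 0)) := by
  have hsq : ∀ ε : K, ε ^ 2 = 1 → ε = 1 ∨ ε = -1 := fun ε h =>
    mul_self_eq_one_iff.1 ((sq ε).symm.trans h)
  by_cases hne : ∃ w ∈ U, q.Q w = 0 ∧ q.h w (G w) ≠ 0
  · rcases gen_odd q h2 hU (by omega) hG hne with ⟨w, hw, h0, hz, hx⟩ | ⟨f, hfU, hf0, hGf⟩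
    · left
      obtain ⟨c, hc0, hc1⟩ := hK
      have hGw := hG.1 w hw
      have hGQ : q.Q (G w) = 0 := by rw [hG.2 w hw, h0]
      have hU1 := perp2_ND q hU hw hGw h0 hGQ hz
      have hf1 := perp2_finrank q hw hGw h0 hGQ hz
      have hG1 := iso_g1 q hG hw h0 hz
      have h4 := par_g1 q hU hG hw h0 hz
      have h5 := corner5 q h2 hU1 (by omega) hG1 (by omega) hx hc0
      refine alt1 q (m := 1) hU (by omega) hG hw h0 hz (fun _ => hc0) h5 ⟨0, 1, ?_⟩
      have e1 : (1 : Fin (1 + 1)) = Fin.succ (0 : Fin 1) := rfl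
      rw [e1, Fin.cons_zero, Fin.cons_succ]
      simp only [Finset.univ_unique, Finset.prod_singleton]
      intro h
      apply hc1
      nth_rewrite 1 [← h]
      exact inv_mul_cancel₀ hc0
    · right
      right
      refine ⟨(q.Q f)⁻¹, inv_ne_zero hf0, 0, 1, zero_ne_one, ?_⟩
      exact refl_sys q h2 hU (k := 2) hf hfU hf0 hGf zero_ne_one
  · push Not at hne
    obtain ⟨c, hE⟩ := sym_exc5 q hU (by omega) hG (fun w1 h1 h3 => hne w1 h1 h3)
    obtain ⟨ε, hε, rfl⟩ := exc_odd q h2 hU (n := 3) (by omega) hG hE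
    rcases hsq ε hε with rfl | rfl
    · rw [mul_one] at hE
      exact Or.inr (Or.inl (exc2_sys q 2 U G hU hf hG hE))
    · rw [mul_neg, mul_one] at hE
      have h3 := exc_m_rk q h2 hU hG hE
      omega

end ThO7
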