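import Pool.Agent.ThO.OSeed

/-! # The matrix `B` for `k = 2` -/

namespace ThO7
open Matrix Polynomial Module ThQ

variable {K : Type*} [Field K]

-- BEGIN sd
private theorem sd_arith {q N : ℕ} (hq : 5 ≤ q) (hN : 2 * N = q ^ 2 - 1) :
    (∀ d, 0 < d → d < 2 → ¬ N ∣ q ^ d - 1) ∧ (∀ i, i < 2 → ¬ N ∣ q ^ i + 1) ∧ ¬ q ^ 2 - 1 ∣ 4 * (q - 1) := by
  obtain ⟨P, hP⟩ : ∃ P, P = q ^ 2 := ⟨_, rfl⟩
  have hP5 : 5 * q ≤ P := by
    rw [hP, pow_two]
    exact Nat.mul_le_mul_right q hq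
  rw [← hP] at hN ⊢
  refine ⟨fun d hd0 hd2 h => ?_, fun i hi h => ?_, fun h => ?_⟩
  · have hd : d = 1 := by omega
    rw [hd, pow_one] at h
    have := Nat.le_of_dvd (by omega) h
    omega
  · have hi' : i = 0 ∨ i = 1 := by omega
    rcases hi' with hi' | hi'
    · rw [hi', pow_zero] at h
      have := Nat.le_of_dvd (by omega) h
      omega
    · rw [hi', pow_one] at h
      have := Nat.le_of_dvd (by omega) h
      omega
  · have := Nat.le_of_dvd (by omega) h
    omega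

private theorem sd_even {R : Type*} [CommRing R] {A : Type*} [CommRing A] [Algebra R A]
    (f : R[X]) (h : ∀ i, Odd i → f.coeff i = 0) (x : A) : aeval (-x) f = aeval x f := by
  rw [aeval_eq_sum_range, aeval_eq_sum_range]
  refine Finset.sum_congr rfl fun i _ => ?_
  rcases Nat.even_or_odd i with he | ho
  · rw [he.neg_pow]
  · rw [h i ho, zero_smul, zero_smul]

private theorem sd_core (K : Type*) [Field K] [Finite K] (h2 : (2 : K) ≠ 0) (hK : 4 ≤ Nat.card K)
    (E : Type) [Field E] [Algebra K E] [Finite E] (hE : finrank K E = 2) :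
    ∃ (f : K[X]) (γ : E), f.Monic ∧ Irreducible f ∧ f.natDegree = 2 ∧ finrank K E = 2 ∧
      aeval (γ ^ 2) f = 0 ∧ aeval (γ ^ 2)⁻¹ f ≠ 0 ∧ γ ≠ 0 ∧ ¬ IsSquare (Algebra.norm K γ) ∧
      f.coeff 1 ≠ 0 := by
  have : Fintype K := Fintype.ofFinite K
  have : Fintype E := Fintype.ofFinite E
  have : Module.Finite K E := Module.Finite.of_finite
  obtain ⟨q, hq⟩ : ∃ q, q = Fintype.card K := ⟨_, rfl⟩
  have hq2 : 2 ≤ q := by
    rw [hq]
    exact Fintype.one_lt_card
  have hchar : ringChar K ≠ 2 := by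
    intro h
    apply h2
    have h3 := ringChar.Nat.cast_ringChar (R := K)
    rw [h, Nat.cast_ofNat] at h3
    exact h3
  have hqodd : ¬ Even q := by
    intro he
    have h3 : Fintype.card K % 2 = 1 := FiniteField.odd_card_of_char_ne_two hchar
    rw [← hq] at h3
    obtain ⟨m, hm⟩ := he
    omega
  have hq5 : 5 ≤ q := by
    rw [Nat.card_eq_fintype_card, ← hq] at hK
    rcases Nat.lt_or_ge q 5 with h | h
    · exfalso
      apply hqodd
      have : q = 4 := by omega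
      rw [this]
      exact ⟨2, rfl⟩
    · exact h
  have hcE : Fintype.card E = q ^ 2 := by
    rw [Module.card_eq_pow_finrank (K := K) (V := E), ← hq, hE]
  obtain ⟨g, hg⟩ := IsCyclic.exists_generator (α := Eˣ)
  have hog : orderOf g = q ^ 2 - 1 := by
    rw [orderOf_eq_card_of_forall_mem_zpowers hg, Nat.card_units, Nat.card_eq_fintype_card, hcE]
  have hpos : 0 < q ^ 2 := pow_pos (by omega) _
  obtain ⟨N, hN, hN2⟩ : ∃ N, orderOf (g ^ 2) = N ∧ 2 * N = q ^ 2 - 1 := by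
    refine ⟨_, rfl, ?_⟩
    rw [orderOf_pow' g two_ne_zero, hog]
    have ho : Odd q := Nat.not_even_iff_odd.1 hqodd
    have h1 : Odd (q ^ 2) := ho.pow
    have h2 : 2 ∣ q ^ 2 - 1 := by
      obtain ⟨m, hm⟩ := h1
      exact ⟨m, by omega⟩
    rw [Nat.gcd_eq_right h2, Nat.mul_div_cancel' h2]
  obtain ⟨hd, hi, h4q⟩ := sd_arith hq5 hN2
  obtain ⟨γ, hγ⟩ : ∃ γ : E, γ = (g : E) := ⟨_, rfl⟩
  have hγ0 : γ ≠ 0 := by rw [hγ]; exact Units.ne_zero _
  have hβ0 : γ ^ 2 ≠ 0 := pow_ne_zero _ hγ0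
  obtain ⟨β, hβ⟩ : ∃ β : E, β = γ ^ 2 := ⟨_, rfl⟩
  rw [← hβ] at hβ0
  have hβN : orderOf β = N := by
    rw [hβ, hγ, ← Units.val_pow_eq_pow_val, orderOf_units, hN]
  have hint : IsIntegral K β := Algebra.IsIntegral.isIntegral β
  obtain ⟨f, hf⟩ : ∃ f, f = minpoly K β := ⟨_, rfl⟩
  have hfm : f.Monic := by rw [hf]; exact minpoly.monic hint
  have hfi : Irreducible f := by rw [hf]; exact minpoly.irreducible hint
  have hfr : aeval β f = 0 := by rw [hf]; exact minpoly.aeval K β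
  have hdeg : f.natDegree = 2 := by
    have hle : f.natDegree ≤ 2 := by rw [hf, ← hE]; exact minpoly.natDegree_le β
    have hfin : finrank K (IntermediateField.adjoin K {β}) = f.natDegree := by
      rw [hf]; exact IntermediateField.adjoin.finrank hint
    by_contra hne
    refine hd f.natDegree ?_ (lt_of_le_of_ne hle hne) ?_
    · rw [hf]; exact minpoly.natDegree_pos hint
    · have : Fintype (IntermediateField.adjoin K {β}) := Fintype.ofFinite _
      have hc : Fintype.card (IntermediateField.adjoin K {β}) = q ^ f.natDegree := by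
        rw [Module.card_eq_pow_finrank (K := K), ← hq, hfin]
      have h1 := FiniteField.pow_card (⟨β, IntermediateField.mem_adjoin_simple_self K β⟩ :
        IntermediateField.adjoin K {β})
      rw [hc] at h1
      have h2 : β ^ (q ^ f.natDegree) = β := congrArg Subtype.val h1
      have hpos : 0 < q ^ f.natDegree := pow_pos (by omega) _
      rw [← hβN, orderOf_dvd_iff_pow_eq_one]
      apply mul_left_cancel₀ hβ0
      rw [← pow_succ', Nat.sub_add_cancel hpos, h2, mul_one]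
  have hconj : ∀ x : E, aeval x f = 0 → ∃ i, i < 2 ∧ x = β ^ (q ^ i) := by
    intro x hx
    have h1 : minpoly K x = minpoly K β := by
      rw [← hf]
      exact (minpoly.eq_of_irreducible_of_monic hfi hx hfm).symm
    obtain ⟨σ, hσ'⟩ := isConjRoot_iff_exists_algEquiv.1
      ((isConjRoot_def (R := K) (x := x) (y := β)).2 h1)
    obtain ⟨⟨i, hik⟩, hi'⟩ := (FiniteField.bijective_frobeniusAlgEquivOfAlgebraic_pow K E).2 σ
    rw [hE] at hik
    refine ⟨i, hik, ?_⟩
    rw [← hσ', ← hi']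
    show (FiniteField.frobeniusAlgEquivOfAlgebraic K E ^ i) β = _
    rw [AlgEquiv.coe_pow, FiniteField.coe_frobeniusAlgEquivOfAlgebraic_iterate, ← hq]
  refine ⟨f, γ, hfm, hfi, hdeg, hE, by rw [← hβ]; exact hfr, fun h0 => ?_, hγ0, ?_, fun hke => ?_⟩
  · rw [← hβ] at h0
    obtain ⟨i, hik, h3⟩ := hconj _ h0
    apply hi i hik
    rw [← hβN, orderOf_dvd_iff_pow_eq_one, pow_succ, ← h3, inv_mul_cancel₀ hβ0]
  · rintro ⟨s, hs⟩
    obtain ⟨c, hc⟩ := FiniteField.exists_nonsquare hchar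
    obtain ⟨x, hx⟩ := FiniteField.norm_surjective K E c
    have hx0 : x ≠ 0 := by
      intro h
      apply hc
      rw [← hx, h, Algebra.norm_zero]
      exact ⟨0, (mul_zero 0).symm⟩
    obtain ⟨n, hn⟩ : ∃ n : ℕ, g ^ n = Units.mk0 x hx0 :=
      (mem_powers_iff_mem_zpowers.2 (hg (Units.mk0 x hx0)))
    have hn' : γ ^ n = x := by
      rw [hγ, ← Units.val_pow_eq_pow_val, hn, Units.val_mk0]
    apply hc
    refine ⟨s ^ n, ?_⟩
    rw [← hx, ← hn', map_pow, hs, mul_pow]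
  · have hall' : ∀ i, Odd i → f.coeff i = 0 := by
      intro i hi1
      rcases Nat.lt_trichotomy i 2 with h | h | h
      · have h1 : i = 1 := by
          rcases hi1 with ⟨m, hm⟩
          omega
        rw [h1, hke]
      · exfalso
        rcases hi1 with ⟨m, hm⟩
        omega
      · exact coeff_eq_zero_of_natDegree_lt (by rw [hdeg]; exact h)
    obtain ⟨i, hik, h3⟩ := hconj (-β) (by rw [sd_even f hall', hfr])
    have hi0 : 0 < i := by
      rcases Nat.eq_zero_or_pos i with h | h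
      · exfalso
        rw [h, pow_zero, pow_one] at h3
        have h4 : (2 : E) * β = 0 := by
          rw [two_mul]
          nth_rewrite 1 [← h3]
          exact neg_add_cancel β
        rcases mul_eq_zero.1 h4 with h5 | h5
        · apply h2
          apply (algebraMap K E).injective
          rw [map_ofNat, map_zero]
          exact h5
        · exact hβ0 h5
      · exact h
    have hi1 : i = 1 := by omega
    rw [hi1, pow_one] at h3
    apply h4q
    rw [← hN2]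
    have h5 : N ∣ 2 * (q - 1) := by
      rw [← hβN, orderOf_dvd_iff_pow_eq_one]
      apply mul_left_cancel₀ (pow_ne_zero 2 hβ0)
      rw [← pow_add, mul_one]
      have h6 : 2 + 2 * (q - 1) = q * 2 := by omega
      rw [h6, pow_mul, ← h3, neg_sq]
    have h7 : 4 * (q - 1) = 2 * (2 * (q - 1)) := by ring
    rw [h7]
    exact Nat.mul_dvd_mul_left 2 h5

private theorem sd_field (K : Type*) [Field K] [Finite K] (h2 : (2 : K) ≠ 0) (hK : 4 ≤ Nat.card K) :
    ∃ (f : K[X]) (E : Type) (_ : Field E) (_ : Algebra K E) (_ : Finite E) (γ : E),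
      f.Monic ∧ Irreducible f ∧ f.natDegree = 2 ∧ finrank K E = 2 ∧ aeval (γ ^ 2) f = 0 ∧
      aeval (γ ^ 2)⁻¹ f ≠ 0 ∧ γ ≠ 0 ∧ ¬ IsSquare (Algebra.norm K γ) ∧
      f.coeff 1 ≠ 0 := by
  obtain ⟨p, hp⟩ := CharP.exists K
  have hpp : Fact p.Prime := ⟨CharP.char_is_prime K p⟩
  obtain ⟨f, γ, h⟩ := sd_core K h2 hK (FiniteField.Extension K p 2)
    (FiniteField.finrank_extension K p 2)
  exact ⟨f, FiniteField.Extension K p 2, inferInstance, inferInstance, inferInstance, γ, h⟩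

private theorem sd_tr {n : ℕ} (M : Matrix (Fin n) (Fin n) K) (p : K[X]) :
    aeval Mᵀ p = (aeval M p)ᵀ := by
  induction p using Polynomial.induction_on' with
  | add p q hp hq => rw [map_add, map_add, hp, hq, transpose_add]
  | monomial i a =>
    rw [aeval_monomial, aeval_monomial, transpose_mul, transpose_pow,
      Algebra.algebraMap_eq_smul_one, transpose_smul, transpose_one, smul_mul_assoc, one_mul,
      mul_smul_comm, mul_one]

private theorem sd_int {n : ℕ} {M N Z : Matrix (Fin n) (Fin n) K} (h : Z * M = N * Z) (p : K[X]) :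
    Z * aeval M p = aeval N p * Z := by
  have hpow : ∀ i : ℕ, Z * M ^ i = N ^ i * Z := by
    intro i
    induction i with
    | zero => rw [pow_zero, pow_zero, mul_one, one_mul]
    | succ i ih => rw [pow_succ, ← mul_assoc, ih, mul_assoc, h, ← mul_assoc, pow_succ]
  induction p using Polynomial.induction_on' with
  | add p q hp hq => rw [map_add, map_add, mul_add, add_mul, hp, hq]
  | monomial i a =>
    rw [aeval_monomial, aeval_monomial, Algebra.algebraMap_eq_smul_one, smul_mul_assoc, one_mul,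
      smul_mul_assoc, one_mul, mul_smul_comm, hpow, smul_mul_assoc]

/-- MODULE sd. Copy of `ThO.seed_odd` (Pool/Agent/ThO/OSeed.lean; copy its private lemmas) for `k = 2`, `q = card K ≥ 5` (odd). `γ` generates
`Eˣ`, `E = F_(q²)`, `β = γ²` has order `N = (q² - 1) / 2`.  (1) `β ∉ K`: `β ^ (q - 1) ≠ 1` as `N > q - 1`; so `f = minpoly` has degree 2.
(2) `aeval β⁻¹ f ≠ 0`: `β⁻¹ ≠ β` as `N > 2`, `β⁻¹ ≠ β ^ q` as `β ^ (q + 1) ≠ 1` (`N > q + 1` as `q ≥ 5`).  (3) `det C = norm γ` is not a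
square as in `OSeed`.  (4) `f.coeff 1 ≠ 0`: otherwise `f (-β) = 0`, `-β = β ^ q` (`-β ≠ β`), `β ^ (2 (q - 1)) = 1`, `N ∣ 2 (q - 1)`,
`q + 1 ∣ 4`, impossible. (`ThW4/Seed.lean` of helper83, store MP_3d54b6_al_ThW4_helper83.tgz, is the same without (3), (4).) -/
theorem seed_two [Finite K] (h2 : (2 : K) ≠ 0) (hK : 4 ≤ Nat.card K) :
    ∃ (f : K[X]) (B C : (Matrix (Fin 2) (Fin 2) K)ˣ),
    f.Monic ∧ Irreducible f ∧ f.natDegree = 2 ∧ f.coeff 0 ≠ 0 ∧
      (B : Matrix (Fin 2) (Fin 2) K) = ThU.comp f 2 ∧ SeedQ B ∧ C * C = B ∧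
      ¬ IsSquare (C : Matrix (Fin 2) (Fin 2) K).det ∧ f.coeff 1 ≠ 0 := by
  obtain ⟨f, E, _, _, _, γ, hfm, hfi, hdeg, hE, hβ, hβi, hγ0, hsq, hev⟩ := sd_field K h2 hK
  have h0k : 0 < 2 := by omega
  obtain ⟨b, -, hB, hp, -, hsurj⟩ := ThU.comp_mul hfm hfi hdeg hE h0k hβ
  have hβ0 : γ ^ 2 ≠ 0 := pow_ne_zero _ hγ0
  have hLinv : ∀ x : E, x ≠ 0 → Algebra.leftMulMatrix b x * Algebra.leftMulMatrix b x⁻¹ = 1 := by
    intro x hx
    rw [← map_mul, mul_inv_cancel₀ hx, map_one]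
  have hLinv' : ∀ x : E, x ≠ 0 → Algebra.leftMulMatrix b x⁻¹ * Algebra.leftMulMatrix b x = 1 := by
    intro x hx
    rw [← map_mul, inv_mul_cancel₀ hx, map_one]
  obtain ⟨U, hU⟩ : ∃ U : ∀ x : E, x ≠ 0 → (Matrix (Fin 2) (Fin 2) K)ˣ,
      ∀ x hx, (U x hx : Matrix (Fin 2) (Fin 2) K) = Algebra.leftMulMatrix b x :=
    ⟨fun x hx => ⟨Algebra.leftMulMatrix b x, Algebra.leftMulMatrix b x⁻¹, hLinv x hx, hLinv' x hx⟩,
      fun x hx => rfl⟩
  have hne1 : γ ^ 2 - 1 ≠ 0 := by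
    intro h
    have h1 : γ ^ 2 = 1 := sub_eq_zero.1 h
    rw [h1, inv_one] at hβi
    rw [h1] at hβ
    exact hβi hβ
  have hCB : U γ hγ0 * U γ hγ0 = U (γ ^ 2) hβ0 := by
    apply Units.ext
    rw [Units.val_mul, hU, hU, ← map_mul, ← pow_two]
  refine ⟨f, U (γ ^ 2) hβ0, U γ hγ0, hfm, hfi, hdeg, ?_, by rw [hU, hB], ⟨?_, ?_, ?_⟩, hCB, ?_, hev⟩
  · intro h0
    have h1 : X ∣ f := Polynomial.X_dvd_iff.2 h0
    have h2 := (Polynomial.irreducible_X.dvd_irreducible_iff_associated hfi).1 h1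
    have h3 := Polynomial.natDegree_eq_of_degree_eq (Polynomial.degree_eq_degree_of_associated h2)
    rw [natDegree_X, hdeg] at h3
    omega
  · -- the root
    obtain ⟨d, hd, hdB⟩ := ThU.sim_irr hfm hfi hdeg h0k
      (M := Algebra.leftMulMatrix b (γ ^ 2)) (N := (Algebra.leftMulMatrix b (γ ^ 2))ᵀ)
      (by rw [aeval_algHom_apply, hβ, map_zero])
      (by rw [sd_tr, aeval_algHom_apply, hβ, map_zero, transpose_zero])
    obtain ⟨du, hdu⟩ := (Matrix.isUnit_iff_isUnit_det d).2 hd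
    refine ⟨U γ hγ0, du, hCB, ?_⟩
    rw [hU, hdu]
    obtain ⟨p, hpγ⟩ := hsurj γ
    rw [← hpγ, ← aeval_algHom_apply, sd_int hdB, sd_tr]
  · -- `n1`
    intro v hv
    rw [hU] at hv
    have h1 : Algebra.leftMulMatrix b (γ ^ 2 - 1) *ᵥ v = 0 := by
      rw [map_sub, map_one, sub_mulVec, one_mulVec, hv, sub_self]
    have h2 : v = (Algebra.leftMulMatrix b (γ ^ 2 - 1)⁻¹ * Algebra.leftMulMatrix b (γ ^ 2 - 1)) *ᵥ v := by
      rw [hLinv' _ hne1, one_mulVec]
    rw [h2, ← mulVec_mulVec, h1, mulVec_zero]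
  · -- `syl`
    intro Z hZ
    rw [hU] at hZ
    have h1 : Z * Algebra.leftMulMatrix b (γ ^ 2) =
        (Algebra.leftMulMatrix b (γ ^ 2)⁻¹)ᵀ * Z := by
      conv_rhs => rw [← hZ]
      rw [mul_assoc, ← mul_assoc ((Algebra.leftMulMatrix b (γ ^ 2)⁻¹)ᵀ), ← transpose_mul,
        hLinv _ hβ0, transpose_one, one_mul]
    have h2 := sd_int h1 f
    rw [aeval_algHom_apply, hβ, map_zero, mul_zero, sd_tr, aeval_algHom_apply] at h2
    have h3 : Z = (Algebra.leftMulMatrix b (aeval (γ ^ 2)⁻¹ f)⁻¹)ᵀ *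
        ((Algebra.leftMulMatrix b (aeval (γ ^ 2)⁻¹ f))ᵀ * Z) := by
      rw [← mul_assoc, ← transpose_mul, hLinv _ hβi, transpose_one, one_mul]
    rw [h3, ← h2, mul_zero]
  · rw [hU, ← Algebra.norm_eq_matrix_det b]
    exact hsq
-- END sd

end ThO7
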