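import Pool.Agent.ThO7.Adj
import Pool.Agent.ThO7.Alt
import Pool.Agent.ThO7.Sd
import Pool.Agent.ThO.OMain

/-! # The main theorem in dimension 7, at least 5 elements -/

namespace ThO7
open Matrix Polynomial Module ThQ ThO

variable {K D : Type*} [Field K] [AddCommGroup D] [Module K D]

/-- The main theorem for `V0` with `D` of dimension 3, `k = 2`. -/
theorem main_V02 [Finite K] [Finite D] (h2 : (2 : K) ≠ 0) (hK : 4 ≤ Nat.card K) (qD : QF K D)
    (hD : qD.ND ⊤) (hD3 : finrank K D = 3) : TP (IG (q0 qD 2)) := by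
  have : FiniteDimensional K D := Module.Finite.of_finite
  obtain ⟨f, B, C, hfm, hfi, hfn, hf0, hfB, hB, hC, hCs, hco⟩ := seed_two (K := K) h2 hK
  obtain ⟨w, d, hw, hw0, hd, hd0⟩ := wd_ex qD hD hD3
  set y : IG qD := eich qD w d hw0 hd with hy
  have hyd : YD qD y := yd_eich h2 qD hw0 hd hd0
  have hCu : IsUnit (ThU.comp f 2).det := by
    rw [← hfB]
    exact (Matrix.isUnit_iff_isUnit_det _).1 B.isUnit
  have hx := comm_XX qD hB hyd
  -- an element with `c * c ≠ 1`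
  have hKc : ∃ c : K, c ≠ 0 ∧ c * c ≠ 1 := by
    classical
    by_contra hcon
    push Not at hcon
    have : Fintype K := Fintype.ofFinite K
    have h3 : (Finset.univ : Finset K) ⊆ {0, 1, -1} := by
      intro c _
      by_cases hc : c = 0
      · simp [hc]
      · have h4 := hcon c hc
        rcases mul_self_eq_one_iff.1 h4 with h5 | h5 <;> simp [h5]
    have h4 := Finset.card_le_card h3
    have h5 : ({0, 1, -1} : Finset K).card ≤ 3 := Finset.card_le_three
    rw [Finset.card_univ, ← Nat.card_eq_fintype_card] at h4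
    omega
  refine ⟨XX qD B y, hx, fun g hg => ?_⟩
  have hV : (q0 qD 2).ND ⊤ := q0_ND qD hD
  have hfr : finrank K (V0 K D 2) = 2 * (2 + 1) + 1 := by rw [V0_finrank, hD3]
  have hfrT : finrank K (⊤ : Submodule K (V0 K D 2)) = 7 := by
    rw [finrank_top, hfr]
  have hGi := IG_iso (q0 qD 2) g
  have hn : (commutator (IG (q0 qD 2))).Normal := inferInstance
  suffices key : ∃ a : Matrix (Fin 2) (Fin 2) K,
      SysB (q0 qD 2) ⊤ ((g : V0 K D 2 ≃ₗ[K] V0 K D 2) : V0 K D 2 →ₗ[K] V0 K D 2) a ∧ Fac f 2 a by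
    obtain ⟨a, ha, hfa⟩ := key
    obtain ⟨P, s, hP⟩ := std_of_sysB qD hD g ha (hfa.unit hCu)
    obtain ⟨l, hl, v, hv, u, hu, hg'⟩ := ldu qD hP (hfa.unit hCu)
    have hlc := low_comm qD hB hl
    have hvc := up_comm qD hB hv
    rw [← hu] at hfa
    have huc : mL qD 2 u ∈ commutator (IG (q0 qD 2)) := comm_map (mL qD 2) (fac_comm hfB hfa)
    have hgc : P⁻¹ * g * P ∈ commutator (IG (q0 qD 2)) := by
      have h := hn.conj_mem g hg P⁻¹
      rwa [inv_inv] at h
    have hsc : oD qD 2 s ∈ commutator (IG (q0 qD 2)) := by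
      have e : oD qD 2 s = (l * mL qD 2 u)⁻¹ * (P⁻¹ * g * P) * v⁻¹ := by
        rw [hg']
        group
      rw [e]
      exact Subgroup.mul_mem _ (Subgroup.mul_mem _ (Subgroup.inv_mem _
        (Subgroup.mul_mem _ hlc huc)) hgc) (Subgroup.inv_mem _ hvc)
    obtain ⟨σ, σ', hs⟩ := mid_prod h2 qD hD hD3 hw hw0 hd hd0 (oD_even h2 qD hD hD3 hsc)
      (fun e f he hf h => by
        rw [h] at hsc
        exact sgn_pair h2 (by omega) qD he hf hsc)
    obtain ⟨S, T, hS, hT, hST⟩ := hfa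
    rw [← hfB] at hST
    obtain ⟨r, r', hr⟩ := main_XX qD hB hyd hl hv hS hT hST hs
    rw [hr] at hg'
    obtain ⟨r0, hr0, e0⟩ := adj_XX h2 (by omega) qD hD hD3 hB hC hCs y (P * r)
    obtain ⟨r1, hr1, e1⟩ := adj_XX h2 (by omega) qD hD hD3 hB hC hCs y (P * r')
    refine ⟨1, Subgroup.one_mem _, fun y => by rw [one_mul, mul_one], r0, hr0, r1, hr1, ?_⟩
    rw [one_mul, ← e0, ← e1]
    have e : g = P * (P⁻¹ * g * P) * P⁻¹ := by group
    rw [e, hg']
    group
  rcases alt_two (q0 qD 2) h2 hKc hV hfrT hGi (comm_even_odd (q0 qD 2) h2 hV hfr hg) with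
    ⟨a, ha, hau, hap, hne⟩ | ha | ⟨c, hc, i0, j0, hij, ha⟩
  · exact ⟨a, ha, ThU.fact hfm hfn hf0 a hau hap hne⟩
  · exact ⟨1, ha, fac_one hCu⟩
  · refine ⟨_, ha, ?_⟩
    exact ThU.pole hfm hfn hf0 (ζ := -1) (by norm_num) ⟨1, by omega, hco, by
      rw [pow_one]
      intro h
      exact h2 (by linear_combination -h)⟩ hc hij (fun i j => rfl)

end ThO7
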